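import Pool.Agent.H.MP_b50c09_co.Frac

namespace Pool.Agent.H.MP_b50c09_co

open Finset

theorem grow (m : ℕ) (ζ : ℝ) (hζ : 0 < ζ) : ∃ k0 : ℕ, ∀ k : ℕ, k0 ≤ k →
    (((k : ℝ) + 1) / ζ) ^ m < 2 ^ k := by
  have h := tendsto_pow_const_div_const_pow_of_one_lt m (show (1 : ℝ) < 2 by norm_num)
  have h2 := h.eventually (gt_mem_nhds (show (0 : ℝ) < ζ ^ m / 2 by positivity))
  obtain ⟨k0, hk0⟩ := Filter.eventually_atTop.1 h2
  refine ⟨k0, fun k hk => ?_⟩
  have h3 := hk0 (k + 1) (by omega)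
  rw [div_lt_div_iff₀ (by positivity) (by positivity), pow_succ (2 : ℝ)] at h3
  rw [div_pow, div_lt_iff₀ (by positivity)]
  push_cast at h3
  linarith

open Classical in
/-- Blocks avoiding `W`. -/
noncomputable def gset {V : Type} [Fintype V] [DecidableEq V] (E : V → V → V → Prop) (t : ℕ)
    (W : Finset V) : Finset (B3 V) :=
  (powersetCard t univ ×ˢ powersetCard t univ ×ˢ powersetCard t univ).filter
    fun b => Blk E t b ∧ Disjoint (supp b) W

theorem many (t : ℕ) (ht : 0 < t) (α c : ℝ) (hα : 0 < α) (hc : 0 < c) :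
    ∃ β : ℝ, 0 < β ∧ β ≤ 1 ∧ ∃ n0 : ℕ, ∀ {V : Type} [Fintype V] [DecidableEq V]
      (E : V → V → V → Prop) (n : ℝ), (Fintype.card V : ℝ) = n → (n0 : ℝ) ≤ n →
      (∀ x y, x ≠ y → c * n ≤ ∑ z, ind (E x y z)) →
      ∀ W : Finset V, (W.card : ℝ) ≤ α ^ 2 * c / 12 * n →
      ∀ A A' : Finset V, α * n ≤ A.card → α * n ≤ A'.card →
        (gset E t W).Nonempty ∧
        β * (gset E t W).card ≤ ∑ b ∈ gset E t W, ind (b.1 ⊆ A ∧ b.2.1 ⊆ A') := by
  obtain ⟨σ, hσ, n1, h1⟩ := box3 t (α ^ 2 * c / 4) (by positivity)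
  obtain ⟨n2, hn2⟩ := exists_nat_ge (2 / α)
  refine ⟨min σ 1, lt_min hσ one_pos, min_le_right _ _, n1 + n2 + t, ?_⟩
  intro V _ _ E n hn hn0 hco W hW A A' hA hA'
  have hcard : n1 + n2 + t ≤ Fintype.card V := by rw [← hn] at hn0; exact_mod_cast hn0
  have hn3 : 2 ≤ α * n := by
    have : (n2 : ℝ) ≤ n := by rw [← hn]; exact_mod_cast (by omega : n2 ≤ Fintype.card V)
    rw [div_le_iff₀ hα] at hn2; nlinarith
  have hnpos : 0 < n := by
    by_contra h
    have : α * n ≤ 0 := mul_nonpos_of_nonneg_of_nonpos hα.le (not_lt.1 h)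
    linarith
  have hd : α ^ 2 * c / 2 * n ^ 3 ≤ ∑ a, ∑ b, ∑ z, ind (a ∈ A ∧ b ∈ A' ∧ E a b z) := by
    have h2 : ∀ a ∈ A, α * n / 2 * (c * n) ≤ ∑ b, ∑ z, ind (a ∈ A ∧ b ∈ A' ∧ E a b z) := by
      intro a ha
      have h3 : ∑ _b ∈ A'.erase a, c * n ≤
          ∑ b ∈ A'.erase a, ∑ z, ind (a ∈ A ∧ b ∈ A' ∧ E a b z) := by
        refine sum_le_sum fun b hb => (hco a b (mem_erase.1 hb).1.symm).trans ?_
        exact sum_le_sum fun z _ => ind_mono fun h => ⟨ha, (mem_erase.1 hb).2, h⟩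
      have h4 : ∑ b ∈ A'.erase a, ∑ z, ind (a ∈ A ∧ b ∈ A' ∧ E a b z) ≤
          ∑ b, ∑ z, ind (a ∈ A ∧ b ∈ A' ∧ E a b z) :=
        sum_le_sum_of_subset_of_nonneg (subset_univ _) fun b _ _ =>
          sum_nonneg fun z _ => ind_nonneg _
      rw [sum_const, nsmul_eq_mul] at h3
      have h5 : A'.card ≤ (A'.erase a).card + 1 := by
        have := pred_card_le_card_erase (s := A') (a := a)
        omega
      have h6 : (A'.card : ℝ) ≤ (A'.erase a).card + 1 := by exact_mod_cast h5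
      have h7 : α * n / 2 ≤ (A'.erase a).card := by linarith
      have h8 := mul_le_mul_of_nonneg_right h7 (mul_pos hc hnpos).le
      linarith
    have h3 := sum_le_sum h2
    rw [sum_const, nsmul_eq_mul] at h3
    have h4 : ∑ a ∈ A, ∑ b, ∑ z, ind (a ∈ A ∧ b ∈ A' ∧ E a b z) ≤
        ∑ a, ∑ b, ∑ z, ind (a ∈ A ∧ b ∈ A' ∧ E a b z) :=
      sum_le_sum_of_subset_of_nonneg (subset_univ _) fun a _ _ =>
        sum_nonneg fun b _ => sum_nonneg fun z _ => ind_nonneg _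
    have h5 := mul_le_mul_of_nonneg_right hA (show 0 ≤ α * n / 2 * (c * n) by positivity)
    nlinarith
  have h2 := avoid (fun a b z => a ∈ A ∧ b ∈ A' ∧ E a b z) univ univ univ W
  simp only [univ_inter, card_univ, hn] at h2
  have h3 := h1 (univ : Finset V) univ univ
    (fun a b z => a ∉ W ∧ b ∉ W ∧ z ∉ W ∧ (a ∈ A ∧ b ∈ A' ∧ E a b z))
    (by rw [card_univ]; omega) (by rw [card_univ]; omega) (by rw [card_univ]; omega) (by
      rw [card_univ, hn]
      nlinarith [mul_le_mul_of_nonneg_right hW (show 0 ≤ n ^ 2 by positivity)])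
  have h4 : ∑ S ∈ powersetCard t univ, ∑ T ∈ powersetCard t univ, ∑ U ∈ powersetCard t univ,
      ind (∀ z ∈ U, ∀ b ∈ T, ∀ a ∈ S, a ∉ W ∧ b ∉ W ∧ z ∉ W ∧ (a ∈ A ∧ b ∈ A' ∧ E a b z)) ≤
      ∑ b ∈ gset E t W, ind (b.1 ⊆ A ∧ b.2.1 ⊆ A') := by
    classical
    rw [gset, sum_filter, sum_product]
    refine sum_le_sum fun S hS => ?_
    rw [sum_product]
    refine sum_le_sum fun T hT => sum_le_sum fun U hU => ?_
    rw [mem_powersetCard] at hS hT hU
    by_cases h : ∀ z ∈ U, ∀ b ∈ T, ∀ a ∈ S,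
        a ∉ W ∧ b ∉ W ∧ z ∉ W ∧ (a ∈ A ∧ b ∈ A' ∧ E a b z)
    · obtain ⟨x, hx⟩ := card_pos.1 (hS.2 ▸ ht)
      obtain ⟨y, hy⟩ := card_pos.1 (hT.2 ▸ ht)
      obtain ⟨z, hz⟩ := card_pos.1 (hU.2 ▸ ht)
      rw [if_pos, ind_pos h, ind_pos]
      · exact ⟨fun a ha => (h z hz y hy a ha).2.2.2.1, fun a ha => (h z hz a ha x hx).2.2.2.2.1⟩
      · refine ⟨⟨hS.2, hT.2, hU.2, fun a ha b hb d hd => (h d hd b hb a ha).2.2.2.2.2⟩, ?_⟩
        rw [disjoint_left]
        intro a ha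
        simp only [supp, mem_union] at ha
        rcases ha with (ha | ha) | ha
        · exact (h z hz y hy a ha).1
        · exact (h z hz a ha x hx).2.1
        · exact (h a ha y hy x hx).2.2.1
    · rw [ind_neg h]
      split_ifs
      · exact ind_nonneg _
      · exact le_rfl
  have hp : (0 : ℝ) < (powersetCard t (univ : Finset V)).card := by
    rw [card_powersetCard, card_univ]
    exact_mod_cast Nat.choose_pos (by omega)
  have h5 : ((gset E t W).card : ℝ) ≤ (powersetCard t (univ : Finset V)).card *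
      (powersetCard t (univ : Finset V)).card * (powersetCard t (univ : Finset V)).card := by
    classical
    have := card_filter_le (powersetCard t (univ : Finset V) ×ˢ powersetCard t (univ : Finset V) ×ˢ
      powersetCard t (univ : Finset V)) fun b => Blk E t b ∧ Disjoint (supp b) W
    rw [card_product, card_product, ← mul_assoc] at this
    unfold gset
    exact_mod_cast (by convert this)
  constructor
  · by_contra h
    rw [not_nonempty_iff_eq_empty] at h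
    rw [h, sum_empty] at h4
    have := mul_pos hσ (mul_pos (mul_pos hp hp) hp)
    linarith
  · exact le_trans (mul_le_mul (min_le_left _ _) h5 (by positivity) hσ.le) (h3.trans h4)

/-- Number of blocks of `F` absorbing for the pair `τ`. -/
def cntA {V : Type} [DecidableEq V] (F : Finset (B3 V)) (τ : Finset V × Finset V) : ℕ :=
  (F.filter fun b => b.1 ⊆ τ.1 ∧ b.2.1 ⊆ τ.2).card

theorem pot_iter {V : Type} [Fintype V] [DecidableEq V] (E : V → V → V → Prop) (hE : Irr E)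
    (t : ℕ) (ht : 0 < t) (β w : ℝ) (hβ1 : β ≤ 1) (Tg : Finset (Finset V × Finset V))
    (h1 : ∀ W : Finset V, (W.card : ℝ) ≤ w → (gset E t W).Nonempty ∧ ∀ τ ∈ Tg,
      β * (gset E t W).card ≤ ∑ b ∈ gset E t W, ind (b.1 ⊆ τ.1 ∧ b.2.1 ⊆ τ.2)) (m : ℕ) :
    (3 * t * m : ℝ) ≤ w → ∃ F, Pack E t F ∧ F.card = m ∧
      ∑ τ ∈ Tg, (1 / 2 : ℝ) ^ cntA F τ ≤ Tg.card * (1 - β / 2) ^ m := by
  induction m with
  | zero => intro _; exact ⟨∅, ⟨by simp, by simp⟩, rfl, by simp [cntA]⟩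
  | succ m ih =>
    intro hm
    have ht' : (0 : ℝ) ≤ t := by positivity
    obtain ⟨F, hF, hFc, hΦ⟩ := ih (by push_cast at hm; nlinarith)
    obtain ⟨hne, h2⟩ := h1 (cov F) (by
      rw [hF.card_cov hE, hFc]; push_cast at hm ⊢; nlinarith)
    have hmem : ∀ b ∈ gset E t (cov F), Blk E t b ∧ Disjoint (supp b) (cov F) := by
      intro b hb
      classical
      rw [gset, mem_filter] at hb
      exact hb.2
    have hnot : ∀ b ∈ gset E t (cov F), b ∉ F := by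
      intro b hb hbF
      obtain ⟨x, hx⟩ := card_pos.1 (show 0 < (supp b).card by
        rw [(hmem b hb).1.card_supp hE]; omega)
      exact disjoint_left.1 (hmem b hb).2 hx (supp_subset_cov hbF hx)
    have hc : ∀ b ∈ gset E t (cov F), ∀ τ, (1 / 2 : ℝ) ^ cntA (insert b F) τ =
        (1 / 2 : ℝ) ^ cntA F τ * (1 - ind (b.1 ⊆ τ.1 ∧ b.2.1 ⊆ τ.2) / 2) := by
      intro b hb τ
      unfold cntA
      rw [filter_insert]
      split_ifs with h
      · rw [card_insert_of_notMem (fun h' => hnot b hb (mem_filter.1 h').1), ind_pos h, pow_succ]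
        norm_num
      · rw [ind_neg h]; simp
    have key : ∑ b ∈ gset E t (cov F), ∑ τ ∈ Tg, (1 / 2 : ℝ) ^ cntA (insert b F) τ ≤
        ∑ _b ∈ gset E t (cov F), (Tg.card : ℝ) * (1 - β / 2) ^ (m + 1) := by
      rw [sum_congr rfl fun b hb => sum_congr rfl fun τ _ => hc b hb τ, sum_comm, sum_const,
        nsmul_eq_mul]
      have h3 : ∀ τ ∈ Tg, ∑ b ∈ gset E t (cov F),
          (1 / 2 : ℝ) ^ cntA F τ * (1 - ind (b.1 ⊆ τ.1 ∧ b.2.1 ⊆ τ.2) / 2) ≤
          (1 / 2 : ℝ) ^ cntA F τ * ((gset E t (cov F)).card * (1 - β / 2)) := by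
        intro τ hτ
        rw [← mul_sum, sum_sub_distrib, ← sum_div, sum_const, nsmul_eq_mul]
        refine mul_le_mul_of_nonneg_left ?_ (by positivity)
        linarith [h2 τ hτ]
      refine (sum_le_sum h3).trans ?_
      rw [← sum_mul, pow_succ]
      have h4 := mul_le_mul_of_nonneg_right hΦ
        (show 0 ≤ ((gset E t (cov F)).card : ℝ) * (1 - β / 2) from
          mul_nonneg (by positivity) (by linarith))
      linarith
    obtain ⟨b, hb, hb2⟩ := exists_le_of_sum_le hne key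
    refine ⟨insert b F, ?_, by rw [card_insert_of_notMem (hnot b hb), hFc], hb2⟩
    rw [insert_eq]
    exact (Pack.single (hmem b hb).1).union hF (by rw [cov_single]; exact (hmem b hb).2)

theorem absorbers (t : ℕ) (ht : 0 < t) (α c γ : ℝ) (hα : 0 < α) (hα1 : α ≤ 1) (hc : 0 < c)
    (hγ : 0 < γ) (hγ1 : γ ≤ α ^ 2 * c / 12) (e : ℕ) :
    ∃ ζ : ℝ, 0 < ζ ∧ ∃ n0 : ℝ, ∀ {V : Type} [Fintype V] [DecidableEq V]
      (E : V → V → V → Prop), Irr E → ∀ (n : ℝ), (Fintype.card V : ℝ) = n → n0 ≤ n →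
      (∀ x y, x ≠ y → c * n ≤ ∑ z, ind (E x y z)) →
      ∀ Tg : Finset (Finset V × Finset V), (Tg.card : ℝ) ≤ n ^ e →
      (∀ τ ∈ Tg, α * n ≤ τ.1.card ∧ α * n ≤ τ.2.card) →
      ∃ F, Pack E t F ∧ ((cov F).card : ℝ) ≤ γ * n ∧ ∀ τ ∈ Tg, ζ * n ≤ cntA F τ := by
  obtain ⟨β, hβ, hβ1, n1, h1⟩ := many t ht α c hα hc
  obtain ⟨L0, hL0⟩ := exists_pow_lt_of_lt_one (show (0 : ℝ) < 1 / 4 by norm_num)
    (show 1 - β / 2 < 1 by linarith)
  have hL : (1 - β / 2) ^ (L0 + 1) ≤ 1 / 4 := by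
    have h0 : 0 ≤ (1 - β / 2) ^ L0 := pow_nonneg (by linarith) _
    rw [pow_succ]; nlinarith
  obtain ⟨ζ, hζ, hζ2⟩ : ∃ ζ : ℝ, 0 < ζ ∧ 3 * t * ((L0 + 1 : ℕ) : ℝ) * ζ = γ :=
    ⟨γ / (3 * t * ((L0 + 1 : ℕ) : ℝ)), by positivity, by field_simp⟩
  obtain ⟨k0, hk0⟩ := grow e ζ hζ
  refine ⟨ζ / 2, by positivity, n1 + (k0 + 2) / ζ, ?_⟩
  intro V _ _ E hE n hn hn0 hco Tg hTg hTg2
  have hn1 : (n1 : ℝ) ≤ n := le_trans (le_add_of_nonneg_right (by positivity)) hn0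
  have hn2 : (k0 : ℝ) + 2 ≤ ζ * n := by
    have : (k0 + 2) / ζ ≤ n := le_trans (le_add_of_nonneg_left (by positivity)) hn0
    rw [div_le_iff₀ hζ] at this; linarith
  have hnn : 0 ≤ n := by rw [← hn]; positivity
  obtain ⟨k, hk1, hk2⟩ : ∃ k : ℕ, (k : ℝ) ≤ ζ * n ∧ ζ * n < k + 1 :=
    ⟨⌊ζ * n⌋₊, Nat.floor_le (by positivity), Nat.lt_floor_add_one _⟩
  have hk3 : k0 ≤ k := by
    have : (k0 : ℝ) ≤ k := by linarith
    exact_mod_cast this
  have hm : (3 * t * (((L0 + 1) * k : ℕ) : ℝ)) ≤ γ * n := by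
    rw [← hζ2, Nat.cast_mul]
    have := mul_le_mul_of_nonneg_left hk1 (show 0 ≤ 3 * t * ((L0 + 1 : ℕ) : ℝ) by positivity)
    linarith
  obtain ⟨F, hF, hFc, hΦ⟩ := pot_iter E hE t ht β (γ * n) hβ1 Tg (fun W hW => by
    have hW' : (W.card : ℝ) ≤ α ^ 2 * c / 12 * n := hW.trans (by gcongr)
    refine ⟨(h1 E n hn hn1 hco W hW' univ univ ?_ ?_).1, fun τ hτ =>
      (h1 E n hn hn1 hco W hW' _ _ (hTg2 τ hτ).1 (hTg2 τ hτ).2).2⟩ <;>
      rw [card_univ, hn] <;> nlinarith) ((L0 + 1) * k) hm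
  refine ⟨F, hF, ?_, fun τ hτ => ?_⟩
  · rw [hF.card_cov hE, hFc]; push_cast at hm ⊢; linarith
  · have h2 := single_le_sum (f := fun τ => (1 / 2 : ℝ) ^ cntA F τ) (fun _ _ => by positivity) hτ
    have h3 : (1 - β / 2) ^ ((L0 + 1) * k) ≤ (1 / 4) ^ k := by
      rw [pow_mul]; exact pow_le_pow_left₀ (pow_nonneg (by linarith) _) hL k
    have h4 : n ^ e < 2 ^ k := by
      refine lt_of_le_of_lt (pow_le_pow_left₀ hnn ?_ e) (hk0 k hk3)
      rw [le_div_iff₀ hζ]; linarith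
    have h5 : (1 / 2 : ℝ) ^ cntA F τ < (1 / 2) ^ k := by
      calc (1 / 2 : ℝ) ^ cntA F τ ≤ Tg.card * (1 - β / 2) ^ ((L0 + 1) * k) := h2.trans hΦ
        _ ≤ n ^ e * (1 / 4) ^ k :=
          mul_le_mul hTg h3 (pow_nonneg (by linarith) _) (by positivity)
        _ < 2 ^ k * (1 / 4) ^ k := by gcongr
        _ = (1 / 2) ^ k := by rw [← mul_pow]; norm_num
    have h6 : k < cntA F τ := by
      by_contra h
      exact absurd (pow_le_pow_of_le_one (by norm_num) (by norm_num) (not_lt.1 h)) (not_le.2 h5)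
    have h7 : (k : ℝ) + 1 ≤ cntA F τ := by exact_mod_cast h6
    nlinarith [mul_nonneg hζ.le hnn]

end Pool.Agent.H.MP_b50c09_co
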