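import Pool.Agent.H.MP_b50c09_co.Seq

namespace Pool.Agent.H.MP_b50c09_co

open Finset

theorem abs_le_sq (e κ : ℝ) (hκ : 0 < κ) : |e| ≤ e ^ 2 / (2 * κ) + κ / 2 := by
  have h : 0 ≤ (|e| - κ) ^ 2 := sq_nonneg _
  have h2 : |e| ^ 2 = e ^ 2 := sq_abs e
  rw [div_add_div _ _ (by positivity) (by positivity), le_div_iff₀ (by positivity)]
  nlinarith

theorem cnt_sum {ι κ : Type} [DecidableEq ι] (y : ι) (J : Finset κ) (m : κ → Multiset (ι × ι × ι)) :
    ((∑ j ∈ J, m j).map (role y)).sum = ∑ j ∈ J, ((m j).map (role y)).sum := by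
  classical
  induction J using Finset.induction_on with
  | empty => simp
  | insert j J hj ih => rw [sum_insert hj, sum_insert hj, Multiset.map_add, Multiset.sum_add, ih]

theorem design {ι : Type} [Fintype ι] [DecidableEq ι] [AddCommGroup ι] (g : ι × ι × ι → ℝ)
    (K η μ : ℝ) (D : ℕ) (h0 : ∀ τ, 0 ≤ g τ) (hK : ∀ τ, g τ ≤ K) (hη : 0 < η) (hμ : 0 ≤ μ)
    (hD : 9 * K ^ 2 ≤ η ^ 2 * D) (hD0 : 0 < D) (l : ι → ℝ)
    (hl : ∀ x, ∑ y, ∑ z, (g (x, y, z) + g (y, x, z) + g (y, z, x)) =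
      (Fintype.card ι : ℝ) ^ 2 * l x) (hl1 : ∀ x, l x ≤ 1) :
    ∃ m : Multiset (ι × ι × ι), (∀ τ ∈ m, g τ ≠ 0) ∧
      (∀ y, (((m.map (role y)).sum : ℕ) : ℝ) ≤ 3 * K * μ * D) ∧
      ∑ y, |(((m.map (role y)).sum : ℕ) : ℝ) - μ * D| ≤
        3 * D * Fintype.card ι + μ * η * D * Fintype.card ι + μ * D * ∑ y, (1 - l y) := by
  set h : ι × ι → ι → ℝ := fun ω x =>
    g (x, x + ω.1, x + ω.2) + g (x - ω.1, x, x - ω.1 + ω.2) + g (x - ω.2, x - ω.2 + ω.1, x)
    with hh
  have hh0 : ∀ ω x, 0 ≤ h ω x := fun ω x => add_nonneg (add_nonneg (h0 _) (h0 _)) (h0 _)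
  have hh1 : ∀ ω x, h ω x ≤ 3 * K := fun ω x => by
    have := hK (x, x + ω.1, x + ω.2)
    have := hK (x - ω.1, x, x - ω.1 + ω.2)
    have := hK (x - ω.2, x - ω.2 + ω.1, x)
    simp only [hh]; linarith
  have hsum : ∀ x, ∑ ω, h ω x = Fintype.card (ι × ι) * l x := by
    intro x
    rw [Fintype.card_prod, Nat.cast_mul, ← sq, ← hl, Fintype.sum_prod_type]
    simp only [hh, sum_add_distrib]
    congr 1
    · congr 1
      · rw [← Equiv.sum_comp (Equiv.addLeft x) (fun y => ∑ z, g (x, y, z))]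
        refine sum_congr rfl fun a _ => ?_
        rw [← Equiv.sum_comp (Equiv.addLeft x) (fun z => g (x, Equiv.addLeft x a, z))]
        rfl
      · rw [← Equiv.sum_comp (Equiv.subLeft x) (fun y => ∑ z, g (y, x, z))]
        refine sum_congr rfl fun a _ => ?_
        rw [← Equiv.sum_comp (Equiv.addLeft (x - a)) (fun z => g (Equiv.subLeft x a, x, z))]
        simp
    · rw [sum_comm, ← Equiv.sum_comp (Equiv.subLeft x) (fun y => ∑ z, g (y, z, x))]
      refine sum_congr rfl fun a _ => ?_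
      rw [← Equiv.sum_comp (Equiv.addLeft (x - a)) (fun z => g (Equiv.subLeft x a, z, x))]
      simp
  obtain ⟨w, hw⟩ := maurey h (9 * K ^ 2) (fun ω x => by nlinarith [hh0 ω x, hh1 ω x]) l hsum D
  set q : Fin D → ι → ℕ := fun j x => ⌊μ * g (x, x + (w j).1, x + (w j).2)⌋₊ with hq
  set m : Multiset (ι × ι × ι) :=
    ∑ j, ∑ x, Multiset.replicate (q j x) (x, x + (w j).1, x + (w j).2) with hm
  have hcnt : ∀ y, (m.map (role y)).sum =
      ∑ j, (q j y + q j (y - (w j).1) + q j (y - (w j).2)) := by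
    intro y
    rw [hm, cnt_sum]
    refine sum_congr rfl fun j _ => ?_
    rw [cnt_sum]
    simp only [Multiset.map_replicate, Multiset.sum_replicate, role, smul_eq_mul, mul_add,
      sum_add_distrib, mul_ite, mul_one, mul_zero, ← eq_sub_iff_add_eq, sum_ite_eq', mem_univ,
      if_true]
  have hq1 : ∀ j x, (q j x : ℝ) ≤ μ * g (x, x + (w j).1, x + (w j).2) :=
    fun j x => Nat.floor_le (mul_nonneg hμ (h0 _))
  have hq2 : ∀ j x, μ * g (x, x + (w j).1, x + (w j).2) ≤ (q j x : ℝ) + 1 :=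
    fun j x => (Nat.lt_floor_add_one _).le
  have hup : ∀ j y, ((q j y + q j (y - (w j).1) + q j (y - (w j).2) : ℕ) : ℝ) ≤
      μ * h (w j) y := by
    intro j y
    have a1 := hq1 j y
    have a2 := hq1 j (y - (w j).1)
    have a3 := hq1 j (y - (w j).2)
    rw [sub_add_cancel] at a2 a3
    simp only [hh]
    push_cast
    linarith
  have hlo : ∀ j y, μ * h (w j) y ≤
      ((q j y + q j (y - (w j).1) + q j (y - (w j).2) : ℕ) : ℝ) + 3 := by
    intro j y
    have a1 := hq2 j y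
    have a2 := hq2 j (y - (w j).1)
    have a3 := hq2 j (y - (w j).2)
    rw [sub_add_cancel] at a2 a3
    simp only [hh]
    push_cast
    linarith
  have hc1 : ∀ y, (((m.map (role y)).sum : ℕ) : ℝ) ≤ μ * ∑ j, h (w j) y := by
    intro y
    rw [hcnt, Nat.cast_sum, mul_sum]
    exact sum_le_sum fun j _ => hup j y
  have hc2 : ∀ y, μ * ∑ j, h (w j) y ≤ (((m.map (role y)).sum : ℕ) : ℝ) + 3 * D := by
    intro y
    rw [hcnt, Nat.cast_sum, mul_sum]
    refine (sum_le_sum fun j _ => hlo j y).trans (le_of_eq ?_)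
    rw [sum_add_distrib, sum_const, card_univ, Fintype.card_fin, nsmul_eq_mul, mul_comm]
  refine ⟨m, ?_, ?_, ?_⟩
  · intro τ hτ
    rw [hm, Multiset.mem_sum] at hτ
    obtain ⟨j, -, hτ⟩ := hτ
    rw [Multiset.mem_sum] at hτ
    obtain ⟨x, -, hτ⟩ := hτ
    rw [Multiset.mem_replicate] at hτ
    intro h0
    apply hτ.1
    simp only [hq]
    rw [← hτ.2, h0, mul_zero, Nat.floor_zero]
  · intro y
    refine (hc1 y).trans ?_
    have : ∑ j, h (w j) y ≤ ∑ _j : Fin D, 3 * K := sum_le_sum fun j _ => hh1 _ _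
    rw [sum_const, card_univ, Fintype.card_fin, nsmul_eq_mul] at this
    nlinarith [mul_le_mul_of_nonneg_left this hμ]
  · have hD' : (0 : ℝ) < D := by exact_mod_cast hD0
    have hκ : 0 < η * D := by positivity
    have h1 : ∀ y, |(((m.map (role y)).sum : ℕ) : ℝ) - μ * D| ≤
        3 * D + μ * ((∑ j, h (w j) y - D * l y) ^ 2 / (2 * (η * D)) + η * D / 2) +
          μ * D * (1 - l y) := by
      intro y
      have a1 := mul_le_mul_of_nonneg_left (abs_le_sq (∑ j, h (w j) y - D * l y) _ hκ) hμ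
      have a2 := mul_le_mul_of_nonneg_left (le_abs_self (∑ j, h (w j) y - D * l y)) hμ
      have a3 := mul_le_mul_of_nonneg_left (neg_abs_le (∑ j, h (w j) y - D * l y)) hμ
      have a4 : 0 ≤ μ * D * (1 - l y) := mul_nonneg (by positivity) (by linarith [hl1 y])
      have a5 := hc1 y
      have a6 := hc2 y
      rw [abs_le]
      constructor <;> nlinarith
    refine (sum_le_sum fun y _ => h1 y).trans ?_
    rw [sum_add_distrib, sum_add_distrib, ← mul_sum, ← mul_sum, sum_add_distrib, ← sum_div,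
      sum_const, sum_const, card_univ, nsmul_eq_mul, nsmul_eq_mul]
    have hN : (0 : ℝ) ≤ Fintype.card ι := by positivity
    have h2 : (∑ y, (∑ j, h (w j) y - D * l y) ^ 2) / (2 * (η * D)) ≤
        Fintype.card ι * (η * D / 2) := by
      rw [div_le_iff₀ (by positivity)]
      refine hw.trans ?_
      have := mul_le_mul_of_nonneg_left hD (mul_nonneg hD'.le hN)
      nlinarith
    rw [← mul_sum]
    nlinarith [mul_le_mul_of_nonneg_left h2 hμ]

end Pool.Agent.H.MP_b50c09_co
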