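import Pool.Agent.H.MP_b50c09_co.Core

namespace Pool.Agent.H.MP_b50c09_co

open Finset

theorem sum2_mono {V : Type} {P Q : Finset V} (h : Q ⊆ P) (ψ : V → V → ℝ) (h0 : ∀ v w, 0 ≤ ψ v w) :
    ∑ v ∈ Q, ∑ w ∈ Q, ψ v w ≤ ∑ v ∈ P, ∑ w ∈ P, ψ v w :=
  (sum_le_sum fun v _ => sum_le_sum_of_subset_of_nonneg h fun w _ _ => h0 v w).trans
    (sum_le_sum_of_subset_of_nonneg h fun v _ _ => sum_nonneg fun w _ => h0 v w)

theorem load_sub {V : Type} {P Q : Finset V} (h : Q ⊆ P) (f : V → V → V → ℝ) (B : ℝ)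
    (h0 : ∀ x y z, 0 ≤ f x y z) (h1 : ∀ x y z, f x y z ≤ B) (u : V) :
    load Q f u ≤ load P f u ∧
      load P f u ≤ load Q f u + 3 * B * ((P.card : ℝ) ^ 2 - (Q.card : ℝ) ^ 2) := by
  refine ⟨sum2_mono h _ fun v w => add_nonneg (add_nonneg (h0 _ _ _) (h0 _ _ _)) (h0 _ _ _), ?_⟩
  have := sum2_mono h (fun v w => 3 * B - (f u v w + f v u w + f v w u)) fun v w => by
    linarith [h1 u v w, h1 v u w, h1 v w u]
  simp only [sum_sub_distrib, sum_const, nsmul_eq_mul] at this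
  unfold load
  linarith

def part {V : Type} (b : B3 V) : Fin 3 → Finset V := ![b.1, b.2.1, b.2.2]

theorem part_subset {V : Type} [DecidableEq V] (b : B3 V) (i : Fin 3) : part b i ⊆ supp b := by
  fin_cases i <;> intro x hx <;> simp only [part, supp, mem_union] at hx ⊢ <;> tauto

theorem part_card {V : Type} {E : V → V → V → Prop} {T : ℕ} {b : B3 V} (hb : Blk E T b)
    (i : Fin 3) : (part b i).card = T := by
  fin_cases i
  exacts [hb.1, hb.2.1, hb.2.2.1]

theorem part_disj {V : Type} {E : V → V → V → Prop} (hE : Irr E) {T : ℕ} {b : B3 V}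
    (hb : Blk E T b) (i j : Fin 3) (h : i ≠ j) : Disjoint (part b i) (part b j) := by
  obtain ⟨d1, d2, d3⟩ := hb.disj hE
  fin_cases i <;> fin_cases j <;> first | exact absurd rfl h | skip
  exacts [d1, d2, d1.symm, d3, d2.symm, d3.symm]

theorem tile_rest {V : Type} [DecidableEq V] {E : V → V → V → Prop} (hE : Irr E) {T s : ℕ}
    (hs : 0 < s) {b : B3 V} (hb : Blk E T b) (X : Finset V) (a : ℝ)
    (ha : ∀ i, a ≤ ((part b i \ X).card : ℝ)) :
    ∃ Y ⊆ supp b \ X, Tiled E s Y ∧ 3 * a - 3 * s ≤ (Y.card : ℝ) := by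
  set k := min (b.1 \ X).card (min (b.2.1 \ X).card (b.2.2 \ X).card) with hk
  have h1 : k / s * s ≤ k := Nat.div_mul_le_self k s
  have h2 : k < k / s * s + s := by
    have := Nat.lt_div_mul_add (a := k) hs
    exact this
  obtain ⟨Y, hY1, hY2, hY3⟩ := tileK (s := s) hE (k / s) (b.1 \ X) (b.2.1 \ X) (b.2.2 \ X)
    (fun x hx y hy z hz => hb.2.2.2 x (mem_sdiff.1 hx).1 y (mem_sdiff.1 hy).1 z (mem_sdiff.1 hz).1)
    (by omega) (by omega) (by omega)
  refine ⟨Y, ?_, hY2, ?_⟩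
  · rw [supp, union_sdiff_distrib, union_sdiff_distrib]; exact hY1
  · have h3 : a ≤ (k : ℝ) := by
      rw [hk, Nat.cast_min, Nat.cast_min]
      exact le_min (ha 0) (le_min (ha 1) (ha 2))
    have h4 : (k : ℝ) ≤ (k / s * s + s : ℕ) := by exact_mod_cast h2.le
    rw [hY3]
    rw [Nat.cast_add, Nat.cast_mul] at h4
    rw [Nat.cast_mul, Nat.cast_mul]
    push_cast
    linarith

theorem improve_ar (p m N T x z R s lam η n : ℝ) (hl : 0 < lam) (hm : 0 ≤ m)
    (hp : p ≤ N * T + T) (hx : N * (lam * T) - R ≤ x)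
    (hz : m * (3 * (T - lam * T) - 3 * s) - 3 * R ≤ z) (hR : R ≤ 9 * lam * η * n)
    (hs : s ≤ lam * η * T) (hmT : 3 * T * m ≤ n) (hη : 0 < η) (hT : T ≤ η * n) :
    p - (x + z) ≤ (1 - lam) * (p - 3 * T * m) + 38 * lam * η * n := by
  have h1 := mul_le_mul_of_nonneg_left hp hl.le
  have h2 := mul_le_mul_of_nonneg_left hs hm
  have h3 := mul_le_mul_of_nonneg_left hmT (mul_pos hl hη).le
  have h4 := mul_le_mul_of_nonneg_left hT hl.le
  nlinarith

theorem improve (K η : ℝ) (hK : 1 ≤ K) (hη : 0 < η) (hη1 : η ≤ 1) (s : ℕ) (hs : 0 < s) :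
    ∃ T : ℕ, 0 < T ∧ ∃ n0 : ℝ, ∀ {V : Type} [DecidableEq V] (E : V → V → V → Prop), Irr E →
    ∀ (P : Finset V) (n : ℝ), 0 < n → n0 ≤ n → (P.card : ℝ) ≤ n →
    ∀ f : V → V → V → ℝ, (∀ x y z, 0 ≤ f x y z) → (∀ x y z, f x y z ≤ K / n ^ 2) →
      (∀ x y z, f x y z ≠ 0 → E x y z ∨ x = y) →
      (∀ u ∈ P, load P f u ≤ 1) → ∑ u ∈ P, (1 - load P f u) ≤ η / 2 * n →
      ∀ Y ⊆ P, Tiled E T Y → ∃ X ⊆ P, Tiled E s X ∧
        (P.card : ℝ) - X.card ≤ (1 - η / (24 * K ^ 2)) * (P.card - Y.card) +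
          38 * (η / (24 * K ^ 2)) * η * n := by
  have hK0 : 0 < K := by linarith
  set lam := η / (24 * K ^ 2) with hlam
  have hl0 : 0 < lam := by positivity
  have hl1 : lam ≤ 1 := by
    rw [hlam, div_le_one (by positivity)]; nlinarith
  obtain ⟨T0, hT0⟩ := core K η hK hη s hs
  obtain ⟨T1, hT1⟩ := exists_nat_ge (s / (lam * η))
  obtain ⟨T, hTa, hTb, hTpos⟩ : ∃ T : ℕ, T0 ≤ T ∧ T1 ≤ T ∧ 0 < T :=
    ⟨T0 + T1 + 1, by omega, by omega, by omega⟩
  have hT' : (0 : ℝ) < T := by exact_mod_cast hTpos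
  have hsT : (s : ℝ) ≤ lam * η * T := by
    have : (T1 : ℝ) ≤ T := by exact_mod_cast hTb
    rw [div_le_iff₀ (by positivity)] at hT1
    nlinarith [mul_pos hl0 hη]
  refine ⟨T, hTpos, 12 * K * T / η + T / (lam * η), ?_⟩
  intro V _ E hE P n hn hn0 hPn f hf0 hf1 hfs hload hdef Y hYP ⟨F, hF, hFY⟩
  subst hFY
  have hn1 : 12 * K * T ≤ η * n := by
    have h1 : 12 * K * T / η ≤ n := le_trans (le_add_of_nonneg_right (by positivity)) hn0
    rw [div_le_iff₀ hη] at h1; linarith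
  have hn2 : T ≤ lam * η * n := by
    have h1 : T / (lam * η) ≤ n := le_trans (le_add_of_nonneg_left (by positivity)) hn0
    rw [div_le_iff₀ (by positivity)] at h1; linarith
  have hYc : ((cov F).card : ℝ) ≤ P.card := by exact_mod_cast card_le_card hYP
  by_cases hPT : P.card < T
  · refine ⟨∅, empty_subset _, Tiled.empty, ?_⟩
    have h1 : (P.card : ℝ) ≤ T := by exact_mod_cast hPT.le
    have h2 : 0 ≤ (1 - lam) * (P.card - (cov F).card) := mul_nonneg (by linarith) (by linarith)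
    have h3 : 0 ≤ lam * η * n := by positivity
    rw [card_empty, Nat.cast_zero]
    linarith
  set U := P \ cov F with hU
  obtain ⟨r, hr2, hr3⟩ : ∃ r, U.card < r * T + T ∧ r * T ≤ U.card :=
    ⟨U.card / T, Nat.lt_div_mul_add hTpos, Nat.div_mul_le_self _ _⟩
  obtain ⟨pc, hpc1, hpc2⟩ := pieces T r U hr3
  have hUc : U.card + 3 * T * F.card = P.card := by
    rw [← hF.card_cov hE, hU, card_sdiff_of_subset hYP]
    have := card_le_card hYP
    omega
  obtain ⟨cl, hcl1, hcl2⟩ : ∃ cl : (F × Fin 3) ⊕ Fin r → Finset V,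
      (∀ b i, cl (Sum.inl (b, i)) = part b.1 i) ∧ ∀ j, cl (Sum.inr j) = pc j :=
    ⟨Sum.elim (fun p => part p.1.1 p.2) pc, fun _ _ => rfl, fun _ => rfl⟩
  have hc : ∀ i, (cl i).card = T := by
    rintro (⟨b, i⟩ | j)
    · rw [hcl1]; exact part_card (hF.1 _ b.2) i
    · rw [hcl2]; exact (hpc1 j).2
  have hd1 : ∀ (b : F) i j, Disjoint (part b.1 i) (pc j) := fun b i j =>
    disjoint_sdiff.mono ((part_subset _ _).trans (supp_subset_cov b.2)) (hpc1 j).1
  have hd : ∀ i j, i ≠ j → Disjoint (cl i) (cl j) := by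
    rintro (⟨b, i⟩ | i) (⟨b', j⟩ | j) h
    · rw [hcl1, hcl1]
      by_cases hb : b = b'
      · subst hb
        exact part_disj hE (hF.1 _ b.2) i j (fun e => h (by rw [e]))
      · exact (hF.2 _ b.2 _ b'.2 (fun e => hb (Subtype.ext e))).mono (part_subset _ _)
          (part_subset _ _)
    · rw [hcl1, hcl2]; exact hd1 b i j
    · rw [hcl1, hcl2]; exact (hd1 b' j i).symm
    · rw [hcl2, hcl2]; exact hpc2 i j (fun e => h (by rw [e]))
  have hN : Fintype.card ((F × Fin 3) ⊕ Fin r) = F.card * 3 + r := by simp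
  have hne : Nonempty ((F × Fin 3) ⊕ Fin r) := by
    rw [← Fintype.card_pos_iff, hN]
    by_contra h0
    have h1 : F.card = 0 := by omega
    have h2 : r = 0 := by omega
    rw [h1] at hUc
    rw [h2] at hr2
    omega
  haveI : DecidableEq ((F × Fin 3) ⊕ Fin r) := Classical.decEq _
  letI : AddCommGroup ((F × Fin 3) ⊕ Fin r) := (Fintype.equivFin _).addCommGroup
  have hQP : univ.biUnion cl ⊆ P := by
    rw [biUnion_subset]
    rintro (⟨b, i⟩ | j) -
    · rw [hcl1]; exact ((part_subset _ _).trans (supp_subset_cov b.2)).trans hYP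
    · rw [hcl2]; exact (hpc1 j).1.trans sdiff_subset
  have hQc : (univ.biUnion cl).card = Fintype.card ((F × Fin 3) ⊕ Fin r) * T := by
    rw [card_biUnion (fun i _ j _ h => hd i j h), sum_congr rfl fun i _ => hc i, sum_const,
      card_univ, smul_eq_mul]
  have hPQ : P.card ≤ Fintype.card ((F × Fin 3) ⊕ Fin r) * T + T := by
    rw [hN, ← hUc]; nlinarith
  have hQn : ((univ.biUnion cl).card : ℝ) ≤ P.card := by exact_mod_cast card_le_card hQP
  have hPQ' : (P.card : ℝ) ≤ (univ.biUnion cl).card + T := by rw [hQc]; exact_mod_cast hPQ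
  have hls := load_sub hQP f (K / n ^ 2) hf0 hf1
  obtain ⟨X, hXQ, hXt, hXd⟩ := hT0 T hTa E hE cl hc hd n hn
    (by rw [← Nat.cast_mul, ← hQc]; linarith) f hf0 hf1 hfs
    (fun u hu => (hls u).1.trans (hload u (hQP hu))) (by
      have hq0 : (0 : ℝ) ≤ (univ.biUnion cl).card := by positivity
      have h1 : 3 * (K / n ^ 2) * ((P.card : ℝ) ^ 2 - ((univ.biUnion cl).card : ℝ) ^ 2) ≤
          η / 2 := by
        have h2 : (P.card : ℝ) ^ 2 - ((univ.biUnion cl).card : ℝ) ^ 2 ≤ T * (2 * n) := by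
          nlinarith
        calc _ ≤ 3 * (K / n ^ 2) * (T * (2 * n)) := by gcongr
          _ = 6 * K * T / n := by field_simp; ring
          _ ≤ η / 2 := by rw [div_le_iff₀ hn]; linarith
      have h2 : ∑ u ∈ univ.biUnion cl, (1 - load (univ.biUnion cl) f u) ≤
          ∑ u ∈ univ.biUnion cl, ((1 - load P f u) + η / 2) :=
        sum_le_sum fun u _ => by linarith [(hls u).2]
      rw [sum_add_distrib, sum_const, nsmul_eq_mul] at h2
      have h3 : ∑ u ∈ univ.biUnion cl, (1 - load P f u) ≤ ∑ u ∈ P, (1 - load P f u) :=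
        sum_le_sum_of_subset_of_nonneg hQP fun u hu _ => by linarith [hload u hu]
      nlinarith)
  rw [← hlam] at hXd
  have hrest : ∀ b ∈ F, ∃ Z ⊆ supp b \ X, Tiled E s Z ∧
      3 * (T - lam * T - ∑ i, |((X ∩ part b i).card : ℝ) - lam * T|) - 3 * s ≤ (Z.card : ℝ) := by
    intro b hb
    refine tile_rest hE hs (hF.1 b hb) X _ fun i => ?_
    have h1 : (part b i \ X).card + (X ∩ part b i).card = T := by
      rw [inter_comm, card_sdiff_add_card_inter, part_card (hF.1 b hb)]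
    have h2 : ((part b i \ X).card : ℝ) + (X ∩ part b i).card = T := by exact_mod_cast h1
    have h3 := single_le_sum (f := fun i => |((X ∩ part b i).card : ℝ) - lam * T|)
      (fun i _ => abs_nonneg _) (mem_univ i)
    have h4 := le_abs_self (((X ∩ part b i).card : ℝ) - lam * T)
    linarith
  choose! Z hZ1 hZ2 hZ3 using hrest
  have hZd : ∀ b ∈ F, ∀ b' ∈ F, b ≠ b' → Disjoint (Z b) (Z b') := fun b hb b' hb' h =>
    (hF.2 b hb b' hb' h).mono ((hZ1 b hb).trans sdiff_subset) ((hZ1 b' hb').trans sdiff_subset)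
  have hXZ : Disjoint X (F.biUnion Z) := by
    rw [disjoint_biUnion_right]
    exact fun b hb => disjoint_sdiff.mono_right (hZ1 b hb)
  refine ⟨X ∪ F.biUnion Z, union_subset (hXQ.trans hQP) ?_,
    hXt.union (Tiled.biUnion F Z hZ2 hZd) hXZ, ?_⟩
  · rw [biUnion_subset]
    exact fun b hb => ((hZ1 b hb).trans sdiff_subset).trans ((supp_subset_cov hb).trans hYP)
  · rw [card_union_of_disjoint hXZ, card_biUnion hZd, hF.card_cov hE]
    push_cast
    refine improve_ar _ _ (Fintype.card ((F × Fin 3) ⊕ Fin r) : ℝ) _ _ _ _ s lam η n hl0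
      (by positivity) (by exact_mod_cast hPQ) ?_ ?_ hXd hsT ?_ hη (by nlinarith [mul_pos hη hn])
    · have h1 : X = univ.biUnion fun x => X ∩ cl x := by
        rw [← inter_biUnion, inter_eq_left.2 hXQ]
      have h2 : X.card = ∑ x, (X ∩ cl x).card := by
        conv_lhs => rw [h1]
        exact card_biUnion fun i _ j _ h => (hd i j h).mono inter_subset_right inter_subset_right
      rw [h2, Nat.cast_sum, ← nsmul_eq_mul, ← card_univ, ← sum_const, ← sum_sub_distrib]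
      exact sum_le_sum fun x _ => by linarith [neg_abs_le (((X ∩ cl x).card : ℝ) - lam * T)]
    · have h1 := sum_le_sum hZ3
      have h2 : ∑ b ∈ F, ∑ i, |((X ∩ part b i).card : ℝ) - lam * T| ≤
          ∑ x, |((X ∩ cl x).card : ℝ) - lam * T| := by
        rw [Fintype.sum_sum_type, Fintype.sum_prod_type]
        simp only [hcl1]
        rw [sum_coe_sort F (fun b => ∑ i, |((X ∩ part b i).card : ℝ) - lam * T|)]
        exact le_add_of_nonneg_right (sum_nonneg fun _ _ => abs_nonneg _)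
      simp only [mul_sub, sum_sub_distrib, sum_const, nsmul_eq_mul, ← mul_sum] at h1
      linarith
    · have : 3 * T * F.card ≤ P.card := by omega
      have h2 : (3 * T * F.card : ℝ) ≤ P.card := by exact_mod_cast this
      linarith

theorem almost_iter (K η : ℝ) (hK : 1 ≤ K) (hη : 0 < η) (hη1 : η ≤ 1) (k : ℕ) :
    ∀ s : ℕ, 0 < s → ∃ n0 : ℝ, ∀ {V : Type} [DecidableEq V] (E : V → V → V → Prop), Irr E →
    ∀ (P : Finset V) (n : ℝ), 0 < n → n0 ≤ n → (P.card : ℝ) ≤ n →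
    ∀ f : V → V → V → ℝ, (∀ x y z, 0 ≤ f x y z) → (∀ x y z, f x y z ≤ K / n ^ 2) →
      (∀ x y z, f x y z ≠ 0 → E x y z ∨ x = y) →
      (∀ u ∈ P, load P f u ≤ 1) → ∑ u ∈ P, (1 - load P f u) ≤ η / 2 * n →
      ∃ X ⊆ P, Tiled E s X ∧
        (P.card : ℝ) - X.card ≤ ((1 - η / (24 * K ^ 2)) ^ k + 38 * η) * n := by
  induction k with
  | zero =>
    intro s _
    refine ⟨0, ?_⟩
    intro V _ E _ P n hn _ hP f _ _ _ _ _
    refine ⟨∅, empty_subset _, Tiled.empty, ?_⟩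
    rw [card_empty, Nat.cast_zero, pow_zero]
    nlinarith [mul_pos hη hn]
  | succ k ih =>
    intro s hs
    obtain ⟨T, hT, n1, h1⟩ := improve K η hK hη hη1 s hs
    obtain ⟨n2, h2⟩ := ih T hT
    refine ⟨max n1 n2, ?_⟩
    intro V _ E hE P n hn hn0 hP f a1 a2 a3 a4 a5
    obtain ⟨Y, hY1, hY2, hY3⟩ := h2 E hE P n hn ((le_max_right _ _).trans hn0) hP f a1 a2 a3 a4 a5
    obtain ⟨X, hX1, hX2, hX3⟩ := h1 E hE P n hn ((le_max_left _ _).trans hn0) hP f a1 a2 a3 a4 a5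
      Y hY1 hY2
    refine ⟨X, hX1, hX2, hX3.trans ?_⟩
    have hl1 : η / (24 * K ^ 2) ≤ 1 := by
      rw [div_le_one (by positivity)]; nlinarith
    have := mul_le_mul_of_nonneg_left hY3 (sub_nonneg.2 hl1)
    generalize η / (24 * K ^ 2) = lam at this ⊢
    rw [pow_succ]
    linarith

theorem almost (K η : ℝ) (hK : 1 ≤ K) (hη : 0 < η) (hη1 : η ≤ 1) (s : ℕ) (hs : 0 < s) :
    ∃ n0 : ℝ, ∀ {V : Type} [DecidableEq V] (E : V → V → V → Prop), Irr E →
    ∀ (P : Finset V) (n : ℝ), 0 < n → n0 ≤ n → (P.card : ℝ) ≤ n →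
    ∀ f : V → V → V → ℝ, (∀ x y z, 0 ≤ f x y z) → (∀ x y z, f x y z ≤ K / n ^ 2) →
      (∀ x y z, f x y z ≠ 0 → E x y z ∨ x = y) →
      (∀ u ∈ P, load P f u ≤ 1) → ∑ u ∈ P, (1 - load P f u) ≤ η / 2 * n →
      ∃ X ⊆ P, Tiled E s X ∧ (P.card : ℝ) - X.card ≤ 39 * η * n := by
  have hl0 : 0 < η / (24 * K ^ 2) := by positivity
  obtain ⟨k, hk⟩ := exists_pow_lt_of_lt_one hη (show 1 - η / (24 * K ^ 2) < 1 by linarith)
  obtain ⟨n0, h⟩ := almost_iter K η hK hη hη1 k s hs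
  refine ⟨n0, ?_⟩
  intro V _ E hE P n hn hn0 hP f a1 a2 a3 a4 a5
  obtain ⟨X, hX1, hX2, hX3⟩ := h E hE P n hn hn0 hP f a1 a2 a3 a4 a5
  refine ⟨X, hX1, hX2, hX3.trans ?_⟩
  nlinarith

end Pool.Agent.H.MP_b50c09_co
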