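import Pool.Agent.H.MP_b50c09_co.Final

namespace Pool.Agent.H.MP_b50c09_co

open Finset

theorem ne_of_card {V : Type} [DecidableEq V] {x y z : V} (h : ({x, y, z} : Finset V).card = 3) :
    x ≠ y ∧ x ≠ z ∧ y ≠ z := by
  refine ⟨?_, ?_, ?_⟩ <;> rintro rfl
  · have : ({x, x, z} : Finset V).card ≤ 2 := by rw [insert_idem]; exact card_le_two
    omega
  · have : ({x, y, x} : Finset V).card ≤ 2 := by
      rw [pair_comm y x, insert_idem]; exact card_le_two
    omega
  · have : ({x, y, y} : Finset V).card ≤ 2 := by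
      rw [pair_eq_singleton]; exact card_le_two
    omega

theorem sum_pairs {V : Type} [Fintype V] [DecidableEq V] (G : Finset (Finset V))
    (hG : ∀ e ∈ G, e.card = 3) (u : V) :
    ∑ v, ∑ w, ind (({u, v, w} : Finset V) ∈ G) = 2 * ((G.filter fun e => u ∈ e).card : ℝ) := by
  have h1 : ∀ v w, ind (({u, v, w} : Finset V) ∈ G) =
      ∑ e ∈ G.filter fun e => u ∈ e, ind (({u, v, w} : Finset V) = e) := by
    intro v w
    rw [sum_ind]
    by_cases h : ({u, v, w} : Finset V) ∈ G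
    · have h' : ({u, v, w} : Finset V) ∈ G.filter fun e => u ∈ e :=
        mem_filter.2 ⟨h, mem_insert_self _ _⟩
      rw [ind_pos h, filter_eq, if_pos h', card_singleton, Nat.cast_one]
    · rw [ind_neg h, filter_eq, if_neg (fun h' => h (mem_filter.1 h').1), card_empty,
        Nat.cast_zero]
  simp only [h1]
  rw [sum_comm3, mul_comm, ← nsmul_eq_mul, ← sum_const]
  refine sum_congr rfl fun e he => ?_
  rw [mem_filter] at he
  rw [← sum_product', sum_ind]
  have h2 : ((univ ×ˢ univ).filter fun p : V × V => ({u, p.1, p.2} : Finset V) = e) =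
      (e.erase u).offDiag := by
    ext ⟨v, w⟩
    simp only [mem_filter, mem_product, mem_univ, true_and, mem_offDiag, mem_erase]
    constructor
    · intro h
      obtain ⟨a1, a2, a3⟩ := ne_of_card (h ▸ hG e he.1)
      exact ⟨⟨a1.symm, by rw [← h]; simp⟩, ⟨a2.symm, by rw [← h]; simp⟩, a3⟩
    · rintro ⟨⟨a1, a2⟩, ⟨a3, a4⟩, a5⟩
      refine eq_of_subset_of_card_le ?_ ?_
      · intro x hx
        simp only [mem_insert, mem_singleton] at hx
        rcases hx with rfl | rfl | rfl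
        exacts [he.2, a2, a4]
      · rw [hG e he.1, card_eq_three.2 ⟨u, v, w, a1.symm, a3.symm, a5, rfl⟩]
  rw [h2, offDiag_card, card_erase_of_mem he.2, hG e he.1]
  norm_num

theorem three_of_colour {W : Type} [DecidableEq W] (χ : W → Fin 3) (e : Finset W)
    (h : ∀ i, (e.filter fun w => χ w = i).card = 1) :
    ∃ a b d, e = {a, b, d} ∧ χ a = 0 ∧ χ b = 1 ∧ χ d = 2 := by
  choose w hw using fun i => card_eq_one.1 (h i)
  have h1 : ∀ i, w i ∈ e ∧ χ (w i) = i := fun i =>
    mem_filter.1 (show w i ∈ e.filter fun w => χ w = i by rw [hw]; exact mem_singleton_self _)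
  refine ⟨w 0, w 1, w 2, ?_, (h1 0).2, (h1 1).2, (h1 2).2⟩
  ext x
  simp only [mem_insert, mem_singleton]
  constructor
  · intro hx
    have h2 : x = w (χ x) := by
      rw [← mem_singleton, ← hw]; exact mem_filter.2 ⟨hx, rfl⟩
    generalize χ x = i at h2
    fin_cases i
    exacts [Or.inl h2, Or.inr (Or.inl h2), Or.inr (Or.inr h2)]
  · rintro (rfl | rfl | rfl)
    exacts [(h1 0).1, (h1 1).1, (h1 2).1]

theorem exists_emb {V : Type} (h : ℕ) (A : Finset V) (hA : A.card = h) :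
    ∃ e : Fin h → V, Function.Injective e ∧ ∀ w, e w ∈ A :=
  ⟨fun w => ((A.equivFinOfCardEq hA).symm w : V),
    fun _ _ e => (A.equivFinOfCardEq hA).symm.injective (Subtype.ext e),
    fun w => ((A.equivFinOfCardEq hA).symm w).2⟩

theorem copies {V : Type} [Fintype V] [DecidableEq V] (h : ℕ) (H : Finset (Finset (Fin h)))
    (χ : Fin h → Fin 3) (hχ : ∀ e ∈ H, ∀ i, (e.filter fun w => χ w = i).card = 1)
    (G : Finset (Finset V)) (E : V → V → V → Prop) (hE : Irr E)
    (hG : ∀ x y z, E x y z → ({x, y, z} : Finset V) ∈ G) (F : Finset (B3 V)) (hF : Pack E h F) :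
    ∃ (m : ℕ) (φ : Fin m → Fin h → V), m = F.card * 3 ∧
      (∀ i j w w', φ i w = φ j w' → i = j ∧ w = w') ∧ ∀ i, ∀ e ∈ H, e.image (φ i) ∈ G := by
  choose emb hemb1 hemb2 using fun (b : F) (i : Fin 3) =>
    exists_emb h (part b.1 i) (part_card (hF.1 _ b.2) i)
  obtain ⟨ψ, hψ⟩ : ∃ ψ : F × Fin 3 → Fin h → V, ∀ b j w, ψ (b, j) w = emb b (χ w + j) w :=
    ⟨fun p w => emb p.1 (χ w + p.2) w, fun _ _ _ => rfl⟩
  have hinj : ∀ p q w w', ψ p w = ψ q w' → p = q ∧ w = w' := by
    rintro ⟨b, j⟩ ⟨b', j'⟩ w w' he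
    rw [hψ, hψ] at he
    have a1 := hemb2 b (χ w + j) w
    have a2 := hemb2 b' (χ w' + j') w'
    rw [← he] at a2
    have hb : b = b' := by
      by_contra hb
      exact disjoint_left.1 (hF.2 _ b.2 _ b'.2 (fun e => hb (Subtype.ext e)))
        (part_subset _ _ a1) (part_subset _ _ a2)
    subst hb
    have hi : χ w + j = χ w' + j' := by
      by_contra hi
      exact disjoint_left.1 (part_disj hE (hF.1 _ b.2) _ _ hi) a1 a2
    rw [hi] at he
    have hw := hemb1 _ _ he
    subst hw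
    exact ⟨by rw [add_left_cancel hi], rfl⟩
  obtain ⟨σ⟩ : Nonempty (Fin (F.card * 3) ≃ F × Fin 3) :=
    ⟨(Fintype.equivFinOfCardEq (by simp)).symm⟩
  refine ⟨_, fun i => ψ (σ i), rfl, fun i j w w' e => ⟨σ.injective (hinj _ _ _ _ e).1,
    (hinj _ _ _ _ e).2⟩, fun i e he => ?_⟩
  beta_reduce
  obtain ⟨b, j⟩ := σ i
  obtain ⟨x, y, z, rfl, hx, hy, hz⟩ := three_of_colour (fun w => χ w + j) e (fun k => by
    simpa only [eq_sub_iff_add_eq] using hχ e he (k - j))
  rw [image_insert, image_insert, image_singleton, hψ, hψ, hψ, hx, hy, hz]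
  exact hG _ _ _ ((hF.1 _ b.2).2.2.2 _ (hemb2 b 0 x) _ (hemb2 b 1 y) _ (hemb2 b 2 z))

theorem uncovered {V : Type} [Fintype V] [DecidableEq V] (m h : ℕ) (φ : Fin m → Fin h → V)
    (hinj : ∀ i j w w', φ i w = φ j w' → i = j ∧ w = w') :
    (univ.filter fun v => ∀ i w, φ i w ≠ v).card = Fintype.card V - m * h := by
  have h1 : (univ.filter fun v => ∀ i w, φ i w ≠ v) =
      univ \ univ.image fun p : Fin m × Fin h => φ p.1 p.2 := by
    ext v
    simp only [mem_filter, mem_univ, true_and, mem_sdiff, mem_image, not_exists]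
    exact ⟨fun hv p => hv p.1 p.2, fun hv i w => hv (i, w)⟩
  have h2 : Function.Injective fun p : Fin m × Fin h => φ p.1 p.2 :=
    fun p q e => Prod.ext (hinj _ _ _ _ e).1 (hinj _ _ _ _ e).2
  rw [h1, card_sdiff_of_subset (subset_univ _), card_image_of_injective _ h2]
  simp only [card_univ, Fintype.card_prod, Fintype.card_fin]

theorem bridge (h : ℕ) (H : Finset (Finset (Fin h))) (hh : 0 < h) (χ : Fin h → Fin 3)
    (hχ : ∀ e ∈ H, ∀ i, (e.filter fun w => χ w = i).card = 1) (c : ℝ) (hc : 0 < c)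
    (hc1 : c < 1) : ∃ C : ℝ, 0 < C ∧ ∀ (n d : ℕ) (G : Finset (Finset (Fin n))),
      (∀ e ∈ G, e.card = 3) → (∀ v, (G.filter fun e => v ∈ e).card = d) →
      c * (n : ℝ) ^ 2 ≤ d →
      (∀ u v, u ≠ v → c * n ≤ (univ.filter fun w =>
        w ≠ u ∧ w ≠ v ∧ ({u, v, w} : Finset (Fin n)) ∈ G).card) →
      ∃ (m : ℕ) (φ : Fin m → Fin h → Fin n),
        (∀ i, Function.Injective (φ i) ∧ ∀ e ∈ H, e.image (φ i) ∈ G) ∧
        (∀ i j, i ≠ j → Disjoint (univ.image (φ i)) (univ.image (φ j))) ∧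
        ((univ.filter fun v => ∀ i w, φ i w ≠ v).card : ℝ) ≤ C := by
  obtain ⟨C, hC⟩ := main h hh c hc hc1.le
  refine ⟨C + 1, by positivity, ?_⟩
  intro n d G hG hreg hd hco
  have hE : Irr fun x y z : Fin n => ({x, y, z} : Finset (Fin n)) ∈ G :=
    fun x y z hx => ne_of_card (hG _ hx)
  obtain ⟨F, hF, hn⟩ := hC (fun x y z : Fin n => ({x, y, z} : Finset (Fin n)) ∈ G) hE (6 * d)
    (by rw [Fintype.card_fin]; linarith [(Nat.cast_nonneg d : (0 : ℝ) ≤ d)])
    (by
      intro u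
      have h1 := sum_pairs G hG u
      rw [hreg] at h1
      have e1 : ∀ v w, ({v, u, w} : Finset (Fin n)) = {u, v, w} := fun v w => insert_comm _ _ _
      have e2 : ∀ v w, ({v, w, u} : Finset (Fin n)) = {u, v, w} := fun v w => by
        rw [pair_comm w u, insert_comm]
      simp only [load, e1, e2, sum_add_distrib, h1]
      ring)
    (by
      intro x y hxy
      rw [Fintype.card_fin, sum_ind]
      refine (hco x y hxy).trans (Nat.cast_le.2 (card_le_card fun w hw => ?_))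
      rw [mem_filter] at hw ⊢
      exact ⟨hw.1, hw.2.2.2⟩)
  obtain ⟨m, φ, hm, hinj, hcopy⟩ := copies h H χ hχ G _ hE (fun _ _ _ h => h) F hF
  refine ⟨m, φ, fun i => ⟨fun w w' e => (hinj _ _ _ _ e).2, hcopy i⟩, fun i j hij => ?_, ?_⟩
  · rw [disjoint_left]
    intro v h1 h2
    obtain ⟨w, -, rfl⟩ := mem_image.1 h1
    obtain ⟨w', -, h3⟩ := mem_image.1 h2
    exact hij (hinj _ _ _ _ h3).1.symm
  · rw [uncovered m h φ hinj, hm]
    have e : F.card * 3 * h = 3 * h * F.card := by ring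
    have h2 : Fintype.card (Fin n) - F.card * 3 * h ≤ C + 1 := by omega
    exact_mod_cast h2

end Pool.Agent.H.MP_b50c09_co
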