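import Pool.Agent.H.MP_b50c09_co.Design

namespace Pool.Agent.H.MP_b50c09_co

open Finset

/-- Total weight of ordered triples in `P` through `u`. -/
noncomputable def load {V : Type} (P : Finset V) (f : V → V → V → ℝ) (u : V) : ℝ :=
  ∑ v ∈ P, ∑ w ∈ P, (f u v w + f v u w + f v w u)

noncomputable def wt {V ι : Type} (f : V → V → V → ℝ) (cl : ι → Finset V)
    (τ : ι × ι × ι) : ℝ :=
  ∑ a ∈ cl τ.1, ∑ b ∈ cl τ.2.1, ∑ c ∈ cl τ.2.2, f a b c

theorem sum_comm3 {α β γ : Type} (A : Finset α) (B : Finset β) (C : Finset γ)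
    (φ : α → β → γ → ℝ) :
    ∑ a ∈ A, ∑ b ∈ B, ∑ c ∈ C, φ a b c = ∑ c ∈ C, ∑ a ∈ A, ∑ b ∈ B, φ a b c := by
  rw [sum_congr rfl fun a _ => sum_comm, sum_comm]

theorem load_cl {V ι : Type} [DecidableEq V] [Fintype ι] (f : V → V → V → ℝ)
    (cl : ι → Finset V) (hd : ∀ i j, i ≠ j → Disjoint (cl i) (cl j)) (x : ι) :
    ∑ y, ∑ z, (wt f cl (x, y, z) + wt f cl (y, x, z) + wt f cl (y, z, x)) =
      ∑ u ∈ cl x, load (univ.biUnion cl) f u := by
  have hb : ∀ φ : V → ℝ, ∑ v ∈ univ.biUnion cl, φ v = ∑ y, ∑ v ∈ cl y, φ v :=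
    fun φ => sum_biUnion (fun i _ j _ h => hd i j h)
  simp only [load, hb]
  rw [sum_comm (s := cl x)]
  refine sum_congr rfl fun y _ => ?_
  rw [sum_comm3 (cl x) (cl y) univ]
  refine sum_congr rfl fun z _ => ?_
  simp only [sum_add_distrib, wt]
  rw [sum_comm (s := cl y) (t := cl x), sum_comm3 (cl y) (cl z) (cl x)]

theorem wt_le {V ι : Type} (E : V → V → V → Prop) (f : V → V → V → ℝ) (cl : ι → Finset V)
    (T : ℕ) (hc : ∀ i, (cl i).card = T) (B : ℝ) (hB : 0 ≤ B) (hf : ∀ x y z, f x y z ≤ B)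
    (hs : ∀ x y z, f x y z ≠ 0 → E x y z ∨ x = y) (τ : ι × ι × ι) :
    wt f cl τ ≤ B * (T : ℝ) ^ 3 ∧ wt f cl τ ≤ B * (dens E cl τ + (T : ℝ) ^ 2) := by
  constructor
  · have : wt f cl τ ≤ ∑ _a ∈ cl τ.1, ∑ _b ∈ cl τ.2.1, ∑ _c ∈ cl τ.2.2, B :=
      sum_le_sum fun a _ => sum_le_sum fun b _ => sum_le_sum fun c _ => hf a b c
    simp only [sum_const, hc, nsmul_eq_mul] at this
    linarith
  · have h1 : wt f cl τ ≤ ∑ a ∈ cl τ.1, ∑ b ∈ cl τ.2.1, ∑ c ∈ cl τ.2.2,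
        B * (ind (E a b c) + ind (a = b)) := by
      refine sum_le_sum fun a _ => sum_le_sum fun b _ => sum_le_sum fun c _ => ?_
      have h1 := ind_nonneg (E a b c)
      have h2 := ind_nonneg (a = b)
      by_cases h : f a b c = 0
      · rw [h]; positivity
      · have h3 := hf a b c
        rcases hs a b c h with h | h
        · rw [ind_pos h]; nlinarith
        · rw [ind_pos h]; nlinarith
    simp only [← mul_sum, sum_add_distrib, sum_const, hc, nsmul_eq_mul] at h1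
    have h2 : ∑ a ∈ cl τ.1, ∑ b ∈ cl τ.2.1, ind (a = b) ≤ ∑ _a ∈ cl τ.1, (1 : ℝ) :=
      sum_le_sum fun a _ => sum_ind_eq_le _ _
    rw [sum_const, hc, nsmul_eq_mul, mul_one] at h2
    refine h1.trans (mul_le_mul_of_nonneg_left ?_ hB)
    have hT : (0 : ℝ) ≤ T := by positivity
    unfold dens
    nlinarith [mul_le_mul_of_nonneg_left h2 hT]

theorem core_ar1 (N T n K W : ℝ) (hN : 0 ≤ N) (hT : 0 < T) (hn : 0 < n) (hK : 0 ≤ K)
    (h : N * T ≤ n) (a : ℝ) (ha : 0 ≤ a) (hW : W ≤ K / n ^ 2 * (a * T ^ 3)) :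
    N ^ 2 / T * W ≤ K * a := by
  have h1 : (N * T) ^ 2 ≤ n ^ 2 := pow_le_pow_left₀ (by positivity) h 2
  calc N ^ 2 / T * W ≤ N ^ 2 / T * (K / n ^ 2 * (a * T ^ 3)) := by gcongr
    _ = K * a * ((N * T) ^ 2 / n ^ 2) := by field_simp
    _ ≤ K * a * 1 := by gcongr; rw [div_le_one (by positivity)]; exact h1
    _ = _ := mul_one _

theorem core_ar2 (N T n D s lam η S R : ℝ) (hN : 0 ≤ N) (hT : 0 < T) (hD : 0 < D) (hs : 0 < s)
    (hl : 0 < lam) (hη : 0 < η) (h : N * T ≤ n) (hT2 : 3 * D * s ≤ lam * η * T)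
    (hS : T * S ≤ 6 * η * N * T + η * n)
    (hR : R ≤ 3 * D * N + lam * T / (D * s) * η * D * N + lam * T / (D * s) * D * S) :
    s * R ≤ 9 * lam * η * n := by
  have e : s * (3 * D * N + lam * T / (D * s) * η * D * N + lam * T / (D * s) * D * S) =
      3 * D * s * N + lam * η * (N * T) + lam * (T * S) := by field_simp
  have h1 := mul_le_mul_of_nonneg_left hR hs.le
  rw [e] at h1
  have h2 := mul_le_mul_of_nonneg_right hT2 hN
  have h3 := mul_le_mul_of_nonneg_left hS hl.le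
  have h4 := mul_le_mul_of_nonneg_left h (mul_pos hl hη).le
  nlinarith

theorem core (K η : ℝ) (hK : 1 ≤ K) (hη : 0 < η) (s : ℕ) (hs : 0 < s) :
    ∃ T0 : ℕ, ∀ T : ℕ, T0 ≤ T →
    ∀ {V ι : Type} [DecidableEq V] [Fintype ι] [DecidableEq ι] [AddCommGroup ι]
      (E : V → V → V → Prop), Irr E →
    ∀ (cl : ι → Finset V), (∀ i, (cl i).card = T) → (∀ i j, i ≠ j → Disjoint (cl i) (cl j)) →
    ∀ n : ℝ, 0 < n → Fintype.card ι * (T : ℝ) ≤ n →
    ∀ f : V → V → V → ℝ, (∀ x y z, 0 ≤ f x y z) → (∀ x y z, f x y z ≤ K / n ^ 2) →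
      (∀ x y z, f x y z ≠ 0 → E x y z ∨ x = y) →
      (∀ u ∈ univ.biUnion cl, load (univ.biUnion cl) f u ≤ 1) →
      ∑ u ∈ univ.biUnion cl, (1 - load (univ.biUnion cl) f u) ≤ η * n →
      ∃ X ⊆ univ.biUnion cl, Tiled E s X ∧
        ∑ x, |((X ∩ cl x).card : ℝ) - η / (24 * K ^ 2) * T| ≤
          9 * (η / (24 * K ^ 2)) * η * n := by
  have hK0 : 0 < K := by linarith
  set lam := η / (24 * K ^ 2) with hlam
  have hl0 : 0 < lam := by positivity
  obtain ⟨T1, hT1⟩ := seqExtract s (η / K) (by positivity)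
  obtain ⟨D0, hD0⟩ := exists_nat_ge (9 * K ^ 2 / η ^ 2)
  set D := D0 + 1 with hD
  have hDpos : 0 < D := Nat.succ_pos _
  have hD1 : 9 * K ^ 2 ≤ η ^ 2 * D := by
    rw [div_le_iff₀ (by positivity)] at hD0
    rw [hD]; push_cast; nlinarith [sq_nonneg η]
  obtain ⟨T2, hT2⟩ := exists_nat_ge (K / η)
  obtain ⟨T3, hT3⟩ := exists_nat_ge (3 * (D : ℝ) * s / (lam * η))
  refine ⟨T1 + T2 + T3 + 1, ?_⟩
  intro T hT V ι _ _ _ _ E hE cl hc hd n hn hNT f hf0 hf1 hfs hload hdef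
  have hTpos : (0 : ℝ) < T := by exact_mod_cast (by omega : 0 < T)
  have hTK : K ≤ η * T := by
    have : (T2 : ℝ) ≤ T := by exact_mod_cast (by omega : T2 ≤ T)
    rw [div_le_iff₀ hη] at hT2; nlinarith
  have hT3' : 3 * (D : ℝ) * s ≤ lam * η * T := by
    have : (T3 : ℝ) ≤ T := by exact_mod_cast (by omega : T3 ≤ T)
    rw [div_le_iff₀ (by positivity)] at hT3
    nlinarith [mul_pos hl0 hη]
  set N : ℝ := (Fintype.card ι : ℝ) with hN
  have hNpos : 0 < N := by rw [hN]; exact_mod_cast Fintype.card_pos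
  have hw := wt_le E f cl T hc (K / n ^ 2) (by positivity) hf1 hfs
  have hw0 : ∀ τ, 0 ≤ wt f cl τ := fun τ =>
    sum_nonneg fun a _ => sum_nonneg fun b _ => sum_nonneg fun c _ => hf0 a b c
  obtain ⟨g, hg0, hgK, hg1, hg2, hg3⟩ : ∃ g : ι × ι × ι → ℝ, (∀ τ, 0 ≤ g τ) ∧ (∀ τ, g τ ≤ K) ∧
      (∀ τ, g τ ≤ N ^ 2 / T * wt f cl τ) ∧ (∀ τ, N ^ 2 / T * wt f cl τ ≤ g τ + 2 * η) ∧
      ∀ τ, g τ ≠ 0 → η / K * (T : ℝ) ^ 3 ≤ dens E cl τ := by
    have h0 : ∀ τ, 0 ≤ N ^ 2 / T * wt f cl τ := fun τ => mul_nonneg (by positivity) (hw0 τ)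
    refine ⟨fun τ => if η / K * (T : ℝ) ^ 3 ≤ dens E cl τ then N ^ 2 / T * wt f cl τ else 0,
      fun τ => ?_, fun τ => ?_, fun τ => ?_, fun τ => ?_, fun τ => ?_⟩
    · beta_reduce; split_ifs; exacts [h0 τ, le_rfl]
    · beta_reduce; split_ifs
      · have := core_ar1 N T n K (wt f cl τ) hNpos.le hTpos hn hK0.le hNT 1 zero_le_one
          (by rw [one_mul]; exact (hw τ).1)
        linarith
      · exact hK0.le
    · beta_reduce; split_ifs; exacts [le_rfl, h0 τ]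
    · beta_reduce; split_ifs with h
      · linarith
      · have h1 := core_ar1 N T n K (wt f cl τ) hNpos.le hTpos hn hK0.le hNT (η / K + 1 / T)
          (by positivity) ((hw τ).2.trans (mul_le_mul_of_nonneg_left (by
            have e : (η / K + 1 / T) * (T : ℝ) ^ 3 = η / K * (T : ℝ) ^ 3 + (T : ℝ) ^ 2 := by
              field_simp
            rw [e]; linarith [not_le.1 h]) (by positivity)))
        have e : K * (η / K + 1 / T) = η + K / T := by field_simp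
        have h2 : K / T ≤ η := by rw [div_le_iff₀ hTpos]; exact hTK
        linarith
    · beta_reduce; intro h; by_contra h'; exact h (if_neg h')
  have hsum : ∀ x, ∑ y, ∑ z, (N ^ 2 / T * wt f cl (x, y, z) + N ^ 2 / T * wt f cl (y, x, z) +
      N ^ 2 / T * wt f cl (y, z, x)) = N ^ 2 / T * ∑ u ∈ cl x, load (univ.biUnion cl) f u := by
    intro x
    rw [← load_cl f cl hd x]
    simp only [mul_sum, mul_add]
  set l : ι → ℝ := fun x => (∑ y, ∑ z, (g (x, y, z) + g (y, x, z) + g (y, z, x))) / N ^ 2 with hl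
  have hl1 : ∀ x, ∑ y, ∑ z, (g (x, y, z) + g (y, x, z) + g (y, z, x)) = N ^ 2 * l x := by
    intro x; simp only [hl]; field_simp
  have hsub : ∀ x, ∀ u ∈ cl x, u ∈ univ.biUnion cl := fun x u hu =>
    mem_biUnion.2 ⟨x, mem_univ _, hu⟩
  have hl2 : ∀ x, l x ≤ 1 := by
    intro x
    have h1 : N ^ 2 * l x ≤ N ^ 2 / T * ∑ u ∈ cl x, load (univ.biUnion cl) f u := by
      rw [← hl1, ← hsum]
      exact sum_le_sum fun y _ => sum_le_sum fun z _ =>
        add_le_add (add_le_add (hg1 _) (hg1 _)) (hg1 _)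
    have h2 : ∑ u ∈ cl x, load (univ.biUnion cl) f u ≤ ∑ _u ∈ cl x, (1 : ℝ) :=
      sum_le_sum fun u hu => hload u (hsub x u hu)
    rw [sum_const, hc, nsmul_eq_mul, mul_one] at h2
    have h3 : N ^ 2 / T * ∑ u ∈ cl x, load (univ.biUnion cl) f u ≤ N ^ 2 / T * T := by gcongr
    rw [div_mul_cancel₀ _ hTpos.ne'] at h3
    have h4 : N ^ 2 * l x ≤ N ^ 2 * 1 := by linarith
    exact le_of_mul_le_mul_left h4 (by positivity)
  have hl3 : ∀ x, T * (1 - l x) ≤
      6 * η * T + ∑ u ∈ cl x, (1 - load (univ.biUnion cl) f u) := by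
    intro x
    have h1 : N ^ 2 / T * ∑ u ∈ cl x, load (univ.biUnion cl) f u ≤
        ∑ y, ∑ z, ((g (x, y, z) + g (y, x, z) + g (y, z, x)) + 6 * η) := by
      rw [← hsum]
      refine sum_le_sum fun y _ => sum_le_sum fun z _ => ?_
      linarith [hg2 (x, y, z), hg2 (y, x, z), hg2 (y, z, x)]
    rw [sum_congr rfl fun y _ => sum_add_distrib, sum_add_distrib, hl1] at h1
    simp only [sum_const, card_univ, nsmul_eq_mul, ← hN] at h1
    rw [sum_sub_distrib, sum_const, hc, nsmul_eq_mul, mul_one]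
    have h2 : N ^ 2 * ∑ u ∈ cl x, load (univ.biUnion cl) f u ≤ N ^ 2 * (T * (l x + 6 * η)) := by
      have := mul_le_mul_of_nonneg_left h1 hTpos.le
      have e : T * (N ^ 2 / T * ∑ u ∈ cl x, load (univ.biUnion cl) f u) =
          N ^ 2 * ∑ u ∈ cl x, load (univ.biUnion cl) f u := by field_simp
      rw [e] at this
      linarith
    have h3 := le_of_mul_le_mul_left h2 (by positivity)
    linarith
  have hl4 : T * ∑ x, (1 - l x) ≤ 6 * η * N * T + η * n := by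
    rw [mul_sum]
    refine (sum_le_sum fun x _ => hl3 x).trans ?_
    rw [sum_add_distrib, sum_const, card_univ, nsmul_eq_mul,
      ← sum_biUnion (fun i _ j _ h => hd i j h)]
    linarith
  have hs' : (0 : ℝ) < s := by exact_mod_cast hs
  have hD' : (0 : ℝ) < D := by exact_mod_cast hDpos
  obtain ⟨m, hm1, hm2, hm3⟩ := design g K η (lam * T / (D * s)) D hg0 hgK hη (by positivity)
    hD1 hDpos l hl1 hl2
  obtain ⟨X, hX1, hX2, hX3⟩ := hT1 T (by omega) E hE cl hc hd m (fun τ hτ => hg3 τ (hm1 τ hτ))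
    (by
      intro y
      have h1 := mul_le_mul_of_nonneg_left (hm2 y) hs'.le
      have e : s * (3 * K * (lam * T / (D * s)) * D) = η / K * T / 8 := by
        rw [hlam]; field_simp; ring
      rw [e] at h1
      rw [Nat.cast_mul]; exact h1)
  refine ⟨X, fun v hv => ?_, hX1, ?_⟩
  · obtain ⟨i, hi⟩ := hX2 v hv
    exact hsub i v hi
  · have h1 := core_ar2 N T n D s lam η _ _ hNpos.le hTpos hD' hs' hl0 hη hNT hT3' hl4 hm3
    refine le_trans (le_of_eq ?_) h1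
    rw [mul_sum]
    refine sum_congr rfl fun x _ => ?_
    rw [hX3, Nat.cast_mul, ← abs_of_pos hs', ← abs_mul, abs_of_pos hs']
    congr 1
    field_simp

end Pool.Agent.H.MP_b50c09_co
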