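import Mathlib

namespace Pool.Agent.H.MP_b50c09_co

open Finset

/-- Real indicator of a proposition. -/
noncomputable def ind (p : Prop) : ℝ := by
  classical
  exact if p then 1 else 0

theorem ind_pos {p : Prop} (h : p) : ind p = 1 := by simp [ind, h]

theorem ind_neg {p : Prop} (h : ¬p) : ind p = 0 := by simp [ind, h]

theorem ind_nonneg (p : Prop) : 0 ≤ ind p := by
  by_cases h : p
  · rw [ind_pos h]; exact zero_le_one
  · rw [ind_neg h]

theorem ind_le_one (p : Prop) : ind p ≤ 1 := by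
  by_cases h : p
  · rw [ind_pos h]
  · rw [ind_neg h]; exact zero_le_one

theorem ind_mono {p q : Prop} (h : p → q) : ind p ≤ ind q := by
  by_cases hp : p
  · rw [ind_pos hp, ind_pos (h hp)]
  · rw [ind_neg hp]; exact ind_nonneg q

theorem ind_congr {p q : Prop} (h : p ↔ q) : ind p = ind q :=
  le_antisymm (ind_mono h.1) (ind_mono h.2)

theorem ind_and (p q : Prop) : ind (p ∧ q) = ind p * ind q := by
  by_cases hp : p
  · by_cases hq : q
    · rw [ind_pos ⟨hp, hq⟩, ind_pos hp, ind_pos hq, one_mul]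
    · rw [ind_neg (fun h => hq h.2), ind_neg hq, mul_zero]
  · rw [ind_neg (fun h => hp h.1), ind_neg hp, zero_mul]

theorem of_ind_ne_zero {p : Prop} (h : ind p ≠ 0) : p := by
  by_contra hp
  exact h (ind_neg hp)

theorem sum_ind {α : Type*} (s : Finset α) (p : α → Prop) [DecidablePred p] :
    ∑ a ∈ s, ind (p a) = ((s.filter p).card : ℝ) := by
  rw [card_filter, Nat.cast_sum]
  refine sum_congr rfl fun a _ => ?_
  by_cases h : p a
  · rw [ind_pos h, if_pos h, Nat.cast_one]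
  · rw [ind_neg h, if_neg h, Nat.cast_zero]

theorem sum_ind_mem {α : Type*} [DecidableEq α] (s W : Finset α) :
    ∑ a ∈ s, ind (a ∈ W) = ((s ∩ W).card : ℝ) := by
  rw [sum_ind, filter_mem_eq_inter]

theorem sum_ind_mem_le {α : Type*} (s W : Finset α) :
    ∑ a ∈ s, ind (a ∈ W) ≤ (W.card : ℝ) := by
  classical
  rw [sum_ind_mem]
  exact_mod_cast card_le_card inter_subset_right

theorem sum_ind_eq_le {α : Type*} (s : Finset α) (b : α) :
    ∑ a ∈ s, ind (b = a) ≤ 1 := by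
  classical
  have h := sum_ind_mem_le s {b}
  simp only [card_singleton, Nat.cast_one] at h
  refine le_trans (le_of_eq (sum_congr rfl fun a _ => ind_congr ?_)) h
  simp [eq_comm]

theorem jensen {α : Type*} (s : Finset α) (y : α → ℝ) (hy : ∀ x ∈ s, 0 ≤ y x) (a : ℝ)
    (ha : 0 ≤ a) (h : a * s.card ≤ ∑ x ∈ s, y x) (t : ℕ) :
    a ^ t * s.card ≤ ∑ x ∈ s, y x ^ t := by
  rcases t with _ | t
  · simp
  rcases s.eq_empty_or_nonempty with rfl | hs
  · simp
  have hc : (0 : ℝ) < s.card := by exact_mod_cast hs.card_pos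
  have h1 := pow_sum_le_card_mul_sum_pow hy t
  have h2 : (a * s.card) ^ (t + 1) ≤ (∑ x ∈ s, y x) ^ (t + 1) :=
    pow_le_pow_left₀ (by positivity) h _
  have h3 : (s.card : ℝ) ^ t * (a ^ (t + 1) * s.card) ≤
      (s.card : ℝ) ^ t * ∑ x ∈ s, y x ^ (t + 1) := by
    calc (s.card : ℝ) ^ t * (a ^ (t + 1) * s.card) = (a * s.card) ^ (t + 1) := by ring
      _ ≤ _ := h2.trans h1
  exact le_of_mul_le_mul_left h3 (by positivity)

/-- One Jensen step. -/
theorem step2 {α β : Type*} (A : Finset α) (X : Finset β) (r : α → β → Prop) (ρ : ℝ)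
    (hρ : 0 ≤ ρ) (t : ℕ) (ht : 2 * (t : ℝ) ≤ ρ * A.card)
    (h : ρ * (A.card * X.card) ≤ ∑ x ∈ X, ∑ a ∈ A, ind (r a x)) :
    (ρ / 2) ^ t * (X.card * (powersetCard t A).card) ≤
      ∑ x ∈ X, ∑ S ∈ powersetCard t A, ind (∀ a ∈ S, r a x) := by
  classical
  set k : β → ℕ := fun x => (A.filter fun a => r a x).card with hk
  have hinner : ∀ x, ∑ S ∈ powersetCard t A, ind (∀ a ∈ S, r a x) = ((k x).choose t : ℝ) := by
    intro x
    rw [sum_ind, ← card_powersetCard]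
    congr 2
    ext S
    simp only [mem_filter, mem_powersetCard]
    constructor
    · rintro ⟨⟨h1, h2⟩, h3⟩
      exact ⟨fun a ha => mem_filter.2 ⟨h1 ha, h3 a ha⟩, h2⟩
    · rintro ⟨h1, h2⟩
      exact ⟨⟨fun a ha => (mem_filter.1 (h1 ha)).1, h2⟩, fun a ha => (mem_filter.1 (h1 ha)).2⟩
  have hsum : ρ * (A.card * X.card) ≤ ∑ x ∈ X, (k x : ℝ) := by
    refine h.trans (le_of_eq (sum_congr rfl fun x _ => ?_))
    rw [sum_ind]
  have hy : ρ * A.card / 2 * X.card ≤ ∑ x ∈ X, ((k x + 1 - t : ℕ) : ℝ) := by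
    have h1 : ∑ x ∈ X, ((k x : ℝ) - t) ≤ ∑ x ∈ X, ((k x + 1 - t : ℕ) : ℝ) := by
      refine sum_le_sum fun x _ => ?_
      have : k x ≤ (k x + 1 - t) + t := by omega
      have h2 : (k x : ℝ) ≤ ((k x + 1 - t : ℕ) : ℝ) + t := by exact_mod_cast this
      linarith
    rw [sum_sub_distrib, sum_const, nsmul_eq_mul] at h1
    have hX : (0 : ℝ) ≤ X.card := by positivity
    nlinarith [mul_le_mul_of_nonneg_right ht hX]
  have hj := jensen X (fun x => ((k x + 1 - t : ℕ) : ℝ)) (fun x _ => by positivity) _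
    (by positivity) hy t
  simp only [hinner]
  have hf : (0 : ℝ) < t.factorial := by exact_mod_cast t.factorial_pos
  have h3 : ∑ x ∈ X, ((k x + 1 - t : ℕ) : ℝ) ^ t / t.factorial ≤
      ∑ x ∈ X, ((k x).choose t : ℝ) := sum_le_sum fun x _ => Nat.pow_le_choose t (k x)
  rw [← sum_div] at h3
  have h4 : ((powersetCard t A).card : ℝ) ≤ (A.card : ℝ) ^ t / t.factorial := by
    rw [card_powersetCard]; exact Nat.choose_le_pow_div t A.card
  calc (ρ / 2) ^ t * (X.card * (powersetCard t A).card)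
      ≤ (ρ / 2) ^ t * (X.card * ((A.card : ℝ) ^ t / t.factorial)) := by gcongr
    _ = (ρ * A.card / 2) ^ t * X.card / t.factorial := by ring
    _ ≤ _ := le_trans (by gcongr) h3

theorem step3 {α β γ : Type*} (A : Finset α) (B : Finset β) (C : Finset γ)
    (r : α → β → γ → Prop) (ρ : ℝ) (hρ : 0 ≤ ρ) (t : ℕ) (ht : 2 * (t : ℝ) ≤ ρ * A.card)
    (h : ρ * (A.card * B.card * C.card) ≤ ∑ a ∈ A, ∑ b ∈ B, ∑ c ∈ C, ind (r a b c)) :
    (ρ / 2) ^ t * (B.card * C.card * (powersetCard t A).card) ≤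
      ∑ b ∈ B, ∑ c ∈ C, ∑ S ∈ powersetCard t A, ind (∀ a ∈ S, r a b c) := by
  have h1 := step2 A (B ×ˢ C) (fun a x => r a x.1 x.2) ρ hρ t ht (by
    rw [card_product, sum_comm, Nat.cast_mul, ← mul_assoc (A.card : ℝ)]
    simpa only [sum_product] using h)
  rw [card_product, Nat.cast_mul, sum_product] at h1
  exact h1

/-- Two steps. -/
theorem box2 (t : ℕ) (ρ : ℝ) (hρ : 0 < ρ) : ∃ σ : ℝ, 0 < σ ∧ ∃ n0 : ℕ,
    ∀ {α β γ : Type} (A : Finset α) (B : Finset β) (C : Finset γ) (r : α → β → γ → Prop),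
      n0 ≤ A.card → n0 ≤ B.card →
      ρ * (A.card * B.card * C.card) ≤ ∑ a ∈ A, ∑ b ∈ B, ∑ c ∈ C, ind (r a b c) →
      σ * (C.card * (powersetCard t A).card * (powersetCard t B).card) ≤
        ∑ c ∈ C, ∑ S ∈ powersetCard t A, ∑ T ∈ powersetCard t B,
          ind (∀ b ∈ T, ∀ a ∈ S, r a b c) := by
  obtain ⟨n1, hn1⟩ := exists_nat_ge (2 * (t : ℝ) / ρ)
  have hρ1 : 0 < (ρ / 2) ^ t := by positivity
  obtain ⟨n2, hn2⟩ := exists_nat_ge (2 * (t : ℝ) / (ρ / 2) ^ t)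
  refine ⟨((ρ / 2) ^ t / 2) ^ t, by positivity, max n1 n2, ?_⟩
  intro α β γ A B C r hA hB h
  have hA' : (n1 : ℝ) ≤ A.card := by exact_mod_cast (le_max_left _ _).trans hA
  have hB' : (n2 : ℝ) ≤ B.card := by exact_mod_cast (le_max_right _ _).trans hB
  have h1 := step3 A B C r ρ hρ.le t (by
    rw [div_le_iff₀ hρ] at hn1; nlinarith) h
  exact step3 B C (powersetCard t A) (fun b c S => ∀ a ∈ S, r a b c) _ hρ1.le t (by
    rw [div_le_iff₀ hρ1] at hn2; nlinarith) h1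

/-- Three steps. -/
theorem box3 (t : ℕ) (ρ : ℝ) (hρ : 0 < ρ) : ∃ σ : ℝ, 0 < σ ∧ ∃ n0 : ℕ,
    ∀ {α β γ : Type} (A : Finset α) (B : Finset β) (C : Finset γ) (r : α → β → γ → Prop),
      n0 ≤ A.card → n0 ≤ B.card → n0 ≤ C.card →
      ρ * (A.card * B.card * C.card) ≤ ∑ a ∈ A, ∑ b ∈ B, ∑ c ∈ C, ind (r a b c) →
      σ * ((powersetCard t A).card * (powersetCard t B).card * (powersetCard t C).card) ≤
        ∑ S ∈ powersetCard t A, ∑ T ∈ powersetCard t B, ∑ U ∈ powersetCard t C,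
          ind (∀ c ∈ U, ∀ b ∈ T, ∀ a ∈ S, r a b c) := by
  obtain ⟨σ, hσ, n1, h1⟩ := box2 t ρ hρ
  obtain ⟨n2, hn2⟩ := exists_nat_ge (2 * (t : ℝ) / σ)
  refine ⟨(σ / 2) ^ t, by positivity, max n1 n2, ?_⟩
  intro α β γ A B C r hA hB hC h
  have hC' : (n2 : ℝ) ≤ C.card := by exact_mod_cast (le_max_right _ _).trans hC
  exact step3 C (powersetCard t A) (powersetCard t B)
    (fun c S T => ∀ b ∈ T, ∀ a ∈ S, r a b c) σ hσ.le t (by
    rw [div_le_iff₀ hσ] at hn2; nlinarith)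
    (h1 A B C r ((le_max_left _ _).trans hA) ((le_max_left _ _).trans hB) h)

/-- Existence of a complete box. -/
theorem exists_box (t : ℕ) (ρ : ℝ) (hρ : 0 < ρ) : ∃ n0 : ℕ,
    ∀ {α : Type} (A B C : Finset α) (r : α → α → α → Prop),
      n0 ≤ A.card → n0 ≤ B.card → n0 ≤ C.card →
      ρ * (A.card * B.card * C.card) ≤ ∑ a ∈ A, ∑ b ∈ B, ∑ c ∈ C, ind (r a b c) →
      ∃ S ⊆ A, ∃ T ⊆ B, ∃ U ⊆ C, S.card = t ∧ T.card = t ∧ U.card = t ∧
        ∀ a ∈ S, ∀ b ∈ T, ∀ c ∈ U, r a b c := by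
  obtain ⟨σ, hσ, n1, h1⟩ := box3 t ρ hρ
  refine ⟨max n1 t, ?_⟩
  intro α A B C r hA hB hC h
  have h2 := h1 A B C r ((le_max_left _ _).trans hA) ((le_max_left _ _).trans hB)
    ((le_max_left _ _).trans hC) h
  have hp : ∀ D : Finset α, max n1 t ≤ D.card → (0 : ℝ) < (powersetCard t D).card := by
    intro D hD
    rw [card_powersetCard]
    exact_mod_cast Nat.choose_pos ((le_max_right _ _).trans hD)
  have h3 := (lt_of_lt_of_le (mul_pos hσ (mul_pos (mul_pos (hp A hA) (hp B hB)) (hp C hC))) h2).ne'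
  obtain ⟨S, hS, h4⟩ := exists_ne_zero_of_sum_ne_zero h3
  obtain ⟨T, hT, h5⟩ := exists_ne_zero_of_sum_ne_zero h4
  obtain ⟨U, hU, h6⟩ := exists_ne_zero_of_sum_ne_zero h5
  rw [mem_powersetCard] at hS hT hU
  exact ⟨S, hS.1, T, hT.1, U, hU.1, hS.2, hT.2, hU.2,
    fun a ha b hb c hc => of_ind_ne_zero h6 c hc b hb a ha⟩

end Pool.Agent.H.MP_b50c09_co
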