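import Pool.Agent.H.MP_b50c09_co.Absorb

namespace Pool.Agent.H.MP_b50c09_co

open Finset

open Classical in
/-- Common neighbourhood of all pairs in `S × T`. -/
noncomputable def nbhd {V : Type} [Fintype V] (E : V → V → V → Prop) (S T : Finset V) :
    Finset V := univ.filter fun x => ∀ b ∈ T, ∀ a ∈ S, E a b x

theorem mem_nbhd {V : Type} [Fintype V] {E : V → V → V → Prop} {S T : Finset V} {x : V} :
    x ∈ nbhd E S T ↔ ∀ b ∈ T, ∀ a ∈ S, E a b x := by
  simp [nbhd]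

theorem targets (t : ℕ) (c : ℝ) (hc : 0 < c) : ∃ α : ℝ, 0 < α ∧ α ≤ 1 ∧ ∃ C0 : ℕ,
    ∀ {V : Type} [Fintype V] [DecidableEq V] (E : V → V → V → Prop) (n : ℝ),
      (Fintype.card V : ℝ) = n → (∀ x y, x ≠ y → c * n ≤ ∑ z, ind (E x y z)) →
      ∀ R : Finset V, C0 ≤ R.card → ∃ S ⊆ R, ∃ T ⊆ R, S.card = t ∧ T.card = t ∧
        α * n ≤ (nbhd E S T).card := by
  obtain ⟨σ, hσ, n1, h1⟩ := box2 t (c / 2) (by positivity)
  refine ⟨min σ 1, lt_min hσ one_pos, min_le_right _ _, n1 + t + 2, ?_⟩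
  intro V _ _ E n hn hco R hR
  have hn0 : 0 ≤ n := by rw [← hn]; positivity
  have h2 := h1 R R (univ : Finset V) E (by omega) (by omega) (by
    have h2 : ∀ a ∈ R, (R.card : ℝ) / 2 * (c * n) ≤ ∑ b ∈ R, ∑ z, ind (E a b z) := by
      intro a ha
      have h3 : ∑ _b ∈ R.erase a, c * n ≤ ∑ b ∈ R.erase a, ∑ z, ind (E a b z) :=
        sum_le_sum fun b hb => hco a b (mem_erase.1 hb).1.symm
      have h4 : ∑ b ∈ R.erase a, ∑ z, ind (E a b z) ≤ ∑ b ∈ R, ∑ z, ind (E a b z) :=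
        sum_le_sum_of_subset_of_nonneg (erase_subset _ _) fun b _ _ =>
          sum_nonneg fun z _ => ind_nonneg _
      rw [sum_const, nsmul_eq_mul] at h3
      have h5 : R.card ≤ 2 * (R.erase a).card := by
        rw [card_erase_of_mem ha]; omega
      have h6 : (R.card : ℝ) ≤ 2 * (R.erase a).card := by exact_mod_cast h5
      have h8 := mul_le_mul_of_nonneg_right h6 (mul_nonneg hc.le hn0)
      linarith
    have h3 := sum_le_sum h2
    rw [sum_const, nsmul_eq_mul] at h3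
    rw [card_univ, hn]
    linarith)
  rw [← sum_comm3, card_univ, hn] at h2
  have hne : (powersetCard t R ×ˢ powersetCard t R).Nonempty := by
    have : (powersetCard t R).Nonempty := by rw [powersetCard_nonempty]; omega
    exact this.product this
  obtain ⟨p, hp, hp2⟩ := exists_le_of_sum_le (f := fun _ => σ * n)
    (g := fun p => ((nbhd E p.1 p.2).card : ℝ)) hne (by
      rw [sum_const, card_product, nsmul_eq_mul, sum_product, Nat.cast_mul]
      refine le_trans (le_of_eq (by ring)) (h2.trans (le_of_eq ?_))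
      refine sum_congr rfl fun S _ => sum_congr rfl fun T _ => ?_
      classical
      rw [sum_ind, nbhd]
      congr)
  rw [mem_product, mem_powersetCard, mem_powersetCard] at hp
  exact ⟨p.1, hp.1.1, p.2, hp.2.1, hp.1.2, hp.2.2,
    le_trans (mul_le_mul_of_nonneg_right (min_le_left _ _) hn0) hp2⟩

theorem absorb_loop {V : Type} [Fintype V] [DecidableEq V] (E : V → V → V → Prop) (hE : Irr E)
    (t : ℕ) (ht : 0 < t) (C0 : ℕ) (Tg : Finset (Finset V × Finset V))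
    (htg : ∀ R R' : Finset V, C0 ≤ R.card → C0 ≤ R'.card → ∃ S1 ⊆ R, ∃ S2 ⊆ R, ∃ S3 ⊆ R',
      ∃ S4 ⊆ R', S1.card = t ∧ S2.card = t ∧ S3.card = t ∧ S4.card = t ∧
        (nbhd E S1 S2, nbhd E S3 S4) ∈ Tg) (j : ℕ) :
    ∀ F, Pack E t F → (∀ τ ∈ Tg, j ≤ cntA F τ) → Fintype.card V ≤ 3 * t * F.card + 2 * C0 + j →
      ∃ F', Pack E t F' ∧ Fintype.card V ≤ 3 * t * F'.card + 2 * C0 := by
  induction j with
  | zero => intro F hF _ h; exact ⟨F, hF, h⟩
  | succ j ih =>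
    intro F hF h1 h2
    by_cases h0 : Fintype.card V ≤ 3 * t * F.card + 2 * C0
    · exact ⟨F, hF, h0⟩
    have hU : 2 * C0 ≤ (univ \ cov F).card := by
      rw [card_sdiff_of_subset (subset_univ _), card_univ, hF.card_cov hE]; omega
    obtain ⟨R, hR1, hR2⟩ := exists_subset_card_eq (s := univ \ cov F) (n := C0) (by omega)
    obtain ⟨S1, s1, S2, s2, S3, s3, S4, s4, c1, c2, c3, c4, hτ⟩ := htg R ((univ \ cov F) \ R)
      hR2.ge (by rw [card_sdiff_of_subset hR1]; omega)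
    obtain ⟨b, hb⟩ := card_pos.1 (lt_of_lt_of_le (Nat.succ_pos j) (h1 _ hτ))
    rw [mem_filter] at hb
    obtain ⟨hbF, hb1, hb2⟩ := hb
    have hbB := hF.1 b hbF
    have B1 : Blk E t (S1, S2, b.1) := ⟨c1, c2, hbB.1, fun x hx y hy z hz =>
      mem_nbhd.1 (hb1 hz) y hy x hx⟩
    have B2 : Blk E t (S3, S4, b.2.1) := ⟨c3, c4, hbB.2.1, fun x hx y hy z hz =>
      mem_nbhd.1 (hb2 hz) y hy x hx⟩
    have hG := hF.mono (erase_subset b F)
    have hG1 : ∀ x ∈ cov (F.erase b), x ∈ cov F ∧ x ∉ supp b := by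
      intro x hx
      obtain ⟨b', hb', hx⟩ := mem_biUnion.1 hx
      rw [mem_erase] at hb'
      exact ⟨supp_subset_cov hb'.2 hx, disjoint_left.1 (hF.2 b' hb'.2 b hbF hb'.1) hx⟩
    have hbs : ∀ x ∈ supp b, x ∈ cov F := fun x hx => supp_subset_cov hbF hx
    have hd12 := disjoint_left.1 (hbB.disj hE).1
    have u1 : ∀ x ∈ supp (S1, S2, b.1), (x ∉ cov F ∧ x ∈ R) ∨ x ∈ b.1 := by
      intro x hx
      rcases mem_union.1 hx with hx | hx
      · rcases mem_union.1 hx with hx | hx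
        · exact Or.inl ⟨(mem_sdiff.1 (hR1 (s1 hx))).2, s1 hx⟩
        · exact Or.inl ⟨(mem_sdiff.1 (hR1 (s2 hx))).2, s2 hx⟩
      · exact Or.inr hx
    have u2 : ∀ x ∈ supp (S3, S4, b.2.1), (x ∉ cov F ∧ x ∉ R) ∨ x ∈ b.2.1 := by
      intro x hx
      rcases mem_union.1 hx with hx | hx
      · rcases mem_union.1 hx with hx | hx
        · exact Or.inl ⟨(mem_sdiff.1 (mem_sdiff.1 (s3 hx)).1).2, (mem_sdiff.1 (s3 hx)).2⟩
        · exact Or.inl ⟨(mem_sdiff.1 (mem_sdiff.1 (s4 hx)).1).2, (mem_sdiff.1 (s4 hx)).2⟩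
      · exact Or.inr hx
    have v1 : ∀ x ∈ b.1, x ∈ supp b := fun x hx => mem_union_left _ (mem_union_left _ hx)
    have v2 : ∀ x ∈ b.2.1, x ∈ supp b := fun x hx => mem_union_left _ (mem_union_right _ hx)
    have D2 : Disjoint (cov {(S3, S4, b.2.1)}) (cov (F.erase b)) := by
      rw [cov_single, disjoint_left]
      intro x hx hx'
      rcases u2 x hx with h | h
      · exact h.1 (hG1 x hx').1
      · exact (hG1 x hx').2 (v2 x h)
    have D1 : Disjoint (cov {(S1, S2, b.1)}) (cov ({(S3, S4, b.2.1)} ∪ F.erase b)) := by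
      rw [cov_union, cov_single, cov_single, disjoint_left]
      intro x hx hx'
      rcases mem_union.1 hx' with hx' | hx'
      · rcases u1 x hx with h | h <;> rcases u2 x hx' with h' | h'
        · exact h'.2 h.2
        · exact h.1 (hbs x (v2 x h'))
        · exact h'.1 (hbs x (v1 x h))
        · exact hd12 h h'
      · rcases u1 x hx with h | h
        · exact h.1 (hG1 x hx').1
        · exact (hG1 x hx').2 (v1 x h)
    have P2 := (Pack.single B2).union hG D2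
    have P1 := (Pack.single B1).union P2 D1
    refine ih _ P1 (fun τ hτ => ?_) ?_
    · have a1 := h1 τ hτ
      have a2 : (F.filter fun b => b.1 ⊆ τ.1 ∧ b.2.1 ⊆ τ.2).erase b ⊆
          ({(S1, S2, b.1)} ∪ ({(S3, S4, b.2.1)} ∪ F.erase b)).filter
            fun b => b.1 ⊆ τ.1 ∧ b.2.1 ⊆ τ.2 := by
        intro x hx
        rw [mem_erase, mem_filter] at hx
        exact mem_filter.2 ⟨mem_union_right _ (mem_union_right _ (mem_erase.2 ⟨hx.1, hx.2.1⟩)),
          hx.2.2⟩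
      have a3 := card_le_card a2
      have a4 := pred_card_le_card_erase (s := F.filter fun b => b.1 ⊆ τ.1 ∧ b.2.1 ⊆ τ.2) (a := b)
      unfold cntA at a1 ⊢
      omega
    · rw [← P1.card_cov hE, cov_union, card_union_of_disjoint D1, cov_union,
        card_union_of_disjoint D2, cov_single, cov_single, B1.card_supp hE, B2.card_supp hE,
        hG.card_cov hE, card_erase_of_mem hbF]
      obtain ⟨m, hm⟩ : ∃ m, F.card = m + 1 := ⟨F.card - 1, by
        have := card_pos.2 ⟨b, hbF⟩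
        omega⟩
      rw [hm] at h2 ⊢
      rw [Nat.add_sub_cancel]
      have : 3 * t * (m + 1) = 3 * t * m + 3 * t := by ring
      omega

theorem main (t : ℕ) (ht : 0 < t) (c : ℝ) (hc : 0 < c) (hc1 : c ≤ 1) : ∃ C : ℕ,
    ∀ {V : Type} [Fintype V] [DecidableEq V] (E : V → V → V → Prop), Irr E →
      ∀ D : ℝ, c * (Fintype.card V : ℝ) ^ 2 ≤ D →
      (∀ u, load univ (fun x y z => ind (E x y z)) u = D) →
      (∀ x y, x ≠ y → c * Fintype.card V ≤ ∑ z, ind (E x y z)) →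
      ∃ F, Pack E t F ∧ Fintype.card V ≤ 3 * t * F.card + C := by
  obtain ⟨α, hα, hα1, C0, h1⟩ := targets t c hc
  obtain ⟨ζ, hζ, n1, h2⟩ := absorbers t ht α c (min (α ^ 2 * c / 12) (c ^ 3 / 32)) hα hα1 hc
    (by positivity) (min_le_left _ _) (4 * t)
  obtain ⟨η, hη, hη1, hη2⟩ : ∃ η : ℝ, 0 < η ∧ η ≤ 1 ∧ 78 * η ≤ ζ :=
    ⟨min 1 (ζ / 78), by positivity, min_le_left _ _, by
      linarith [min_le_right 1 (ζ / 78)]⟩
  obtain ⟨K, hK, h3⟩ := frac c η hc hc1 hη
  obtain ⟨n2, h4⟩ := almost K η hK hη hη1 t ht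
  obtain ⟨N, hN⟩ := exists_nat_ge (max (max n1 n2) (max (16 / c ^ 3) (2 / ζ)))
  refine ⟨2 * C0 + N, ?_⟩
  intro V _ _ E hE D hD hreg hco
  by_cases hn : Fintype.card V ≤ N
  · exact ⟨∅, ⟨by simp, by simp⟩, by omega⟩
  obtain ⟨n, hnn⟩ : ∃ n : ℝ, (Fintype.card V : ℝ) = n := ⟨_, rfl⟩
  rw [hnn] at hD hco
  have hn' : (N : ℝ) ≤ n := by rw [← hnn]; exact_mod_cast (not_le.1 hn).le
  have hn0 := hN.trans hn'
  simp only [max_le_iff] at hn0
  obtain ⟨⟨q1, q2⟩, q3, q4⟩ := hn0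
  rw [div_le_iff₀ (by positivity)] at q3 q4
  have hnpos : 0 < n := by rw [← hnn]; exact_mod_cast (by omega : 0 < Fintype.card V)
  obtain ⟨Tg, hT1, hT2, hT3⟩ : ∃ Tg : Finset (Finset V × Finset V), (Tg.card : ℝ) ≤ n ^ (4 * t) ∧
      (∀ τ ∈ Tg, α * n ≤ τ.1.card ∧ α * n ≤ τ.2.card) ∧
      ∀ S1 S2 S3 S4 : Finset V, S1.card = t → S2.card = t → S3.card = t → S4.card = t →
        α * n ≤ (nbhd E S1 S2).card → α * n ≤ (nbhd E S3 S4).card →
        (nbhd E S1 S2, nbhd E S3 S4) ∈ Tg := by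
    classical
    refine ⟨(((powersetCard t univ ×ˢ powersetCard t univ) ×ˢ
      (powersetCard t univ ×ˢ powersetCard t univ)).image
        fun p => (nbhd E p.1.1 p.1.2, nbhd E p.2.1 p.2.2)).filter
        fun τ => α * n ≤ τ.1.card ∧ α * n ≤ τ.2.card, ?_, fun τ hτ => (mem_filter.1 hτ).2, ?_⟩
    · rw [← hnn]
      norm_cast
      refine (card_filter_le _ _).trans (card_image_le.trans ?_)
      simp only [card_product, card_powersetCard, card_univ]
      have := Nat.choose_le_pow (Fintype.card V) t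
      calc _ ≤ (Fintype.card V ^ t * Fintype.card V ^ t) *
            (Fintype.card V ^ t * Fintype.card V ^ t) := by gcongr
        _ = _ := by ring
    · intro S1 S2 S3 S4 c1 c2 c3 c4 a1 a2
      refine mem_filter.2 ⟨mem_image.2 ⟨((S1, S2), (S3, S4)), ?_, rfl⟩, a1, a2⟩
      simp [c1, c2, c3, c4]
  obtain ⟨F, hF, hF1, hF2⟩ := h2 E hE n hnn q1 hco Tg hT1 hT2
  obtain ⟨f, f1, f2, f3, f4, f5⟩ := h3 E n hnn (by linarith) D hD hreg hco (cov F)
    (hF1.trans (mul_le_mul_of_nonneg_right (min_le_right _ _) hnpos.le))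
  obtain ⟨X, hX1, ⟨G, hG, rfl⟩, hX3⟩ := h4 E hE (univ \ cov F) n hnpos q2
    (by rw [← hnn]; exact_mod_cast card_le_univ _) f f1 f2 f3 f4 f5
  have hd : Disjoint (cov F) (cov G) := disjoint_sdiff.mono_right hX1
  have hP := hF.union hG hd
  obtain ⟨F', hF', h5⟩ := absorb_loop E hE t ht C0 Tg (by
    intro R R' hR hR'
    obtain ⟨S1, s1, S2, s2, c1, c2, a1⟩ := h1 E n hnn hco R hR
    obtain ⟨S3, s3, S4, s4, c3, c4, a2⟩ := h1 E n hnn hco R' hR'
    exact ⟨S1, s1, S2, s2, S3, s3, S4, s4, c1, c2, c3, c4, hT3 _ _ _ _ c1 c2 c3 c4 a1 a2⟩)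
    ⌊ζ * n⌋₊ (F ∪ G) hP (fun τ hτ => by
      refine (Nat.floor_le_of_le (hF2 τ hτ)).trans (card_le_card ?_)
      exact filter_subset_filter _ subset_union_left) (by
      rw [← hP.card_cov hE, cov_union, card_union_of_disjoint hd]
      rw [card_sdiff_of_subset (subset_univ _), Nat.cast_sub (card_le_card (subset_univ _)), card_univ,
        hnn] at hX3
      have a1 := Nat.lt_floor_add_one (ζ * n)
      have a2 : (Fintype.card V : ℝ) ≤ (cov F).card + (cov G).card + ⌊ζ * n⌋₊ := by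
        rw [hnn]; nlinarith
      have a3 : Fintype.card V ≤ (cov F).card + (cov G).card + ⌊ζ * n⌋₊ := by exact_mod_cast a2
      omega)
  exact ⟨F', hF', by omega⟩

end Pool.Agent.H.MP_b50c09_co
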