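import Pool.Agent.H.MP_b50c09_co.Almost

namespace Pool.Agent.H.MP_b50c09_co

open Finset

theorem pair {V : Type} [DecidableEq V] (P : Finset V) (R : V → V → V → Prop) (κ : ℝ)
    (hκ : 0 < κ) (hR : ∀ x ∈ P, ∀ y ∈ P, κ ≤ ∑ z ∈ P, ind (R x y z)) (δ : V → ℝ) (B : ℝ)
    (h0 : ∀ v ∈ P, 0 ≤ δ v) (h1 : ∀ v ∈ P, δ v ≤ B) (Δ : ℝ) (hΔ : ∑ v ∈ P, δ v = Δ)
    (hpos : 0 < Δ) :
    ∃ (g : V → V → V → ℝ) (p : V → ℝ), (∀ x y z, 0 ≤ g x y z) ∧
      (∀ x y z, ¬R x y z → g x y z = 0) ∧ (∀ x y z, g x y z ≤ B ^ 2 / (2 * Δ * κ)) ∧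
      (∀ u, 0 ≤ p u) ∧ (∀ u, p u ≤ Δ / (2 * κ)) ∧ ∑ u ∈ P, p u = Δ / 2 ∧
      ∀ u ∈ P, load P g u = δ u + p u := by
  obtain ⟨g, hg1, hg2⟩ : ∃ g : V → V → V → ℝ,
      (∀ x ∈ P, ∀ y ∈ P, ∀ z, g x y z =
        δ x * δ y / (2 * Δ) * (ind (R x y z) / ∑ z ∈ P, ind (R x y z))) ∧
      ∀ x y z, ¬(x ∈ P ∧ y ∈ P) → g x y z = 0 :=
    ⟨fun x y z => if x ∈ P ∧ y ∈ P then
      δ x * δ y / (2 * Δ) * (ind (R x y z) / ∑ z ∈ P, ind (R x y z)) else 0,
      fun x hx y hy z => if_pos ⟨hx, hy⟩, fun x y z h => if_neg h⟩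
  have ha : ∀ x ∈ P, ∀ y ∈ P, 0 ≤ δ x * δ y / (2 * Δ) := fun x hx y hy =>
    div_nonneg (mul_nonneg (h0 x hx) (h0 y hy)) (by positivity)
  have hg0 : ∀ x y z, 0 ≤ g x y z := by
    intro x y z
    by_cases h : x ∈ P ∧ y ∈ P
    · rw [hg1 x h.1 y h.2]
      exact mul_nonneg (ha x h.1 y h.2) (div_nonneg (ind_nonneg _)
        (hκ.le.trans (hR x h.1 y h.2)))
    · rw [hg2 x y z h]
  have hg3 : ∀ x ∈ P, ∀ y ∈ P, ∀ z, g x y z ≤ δ x * δ y / (2 * Δ) * (1 / κ) := by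
    intro x hx y hy z
    rw [hg1 x hx y hy]
    exact mul_le_mul_of_nonneg_left
      (div_le_div₀ zero_le_one (ind_le_one _) hκ (hR x hx y hy)) (ha x hx y hy)
  have hg4 : ∀ x ∈ P, ∀ y ∈ P, ∑ z ∈ P, g x y z = δ x * δ y / (2 * Δ) := by
    intro x hx y hy
    rw [sum_congr rfl fun z _ => hg1 x hx y hy z, ← mul_sum, ← sum_div,
      div_self (hκ.trans_le (hR x hx y hy)).ne', mul_one]
  have hs1 : ∀ x, ∑ y ∈ P, δ x * δ y / (2 * Δ) = δ x / 2 := by
    intro x
    rw [← sum_div, ← mul_sum, hΔ]; field_simp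
  have hs2 : ∑ x ∈ P, ∑ y ∈ P, δ x * δ y / (2 * Δ) = Δ / 2 := by
    rw [sum_congr rfl fun x _ => hs1 x, ← sum_div, hΔ]
  refine ⟨g, fun u => ∑ v ∈ P, ∑ w ∈ P, g v w u, hg0, ?_, ?_, ?_, ?_, ?_, ?_⟩
  · intro x y z h
    by_cases h' : x ∈ P ∧ y ∈ P
    · rw [hg1 x h'.1 y h'.2, ind_neg h, zero_div, mul_zero]
    · exact hg2 x y z h'
  · intro x y z
    by_cases h : x ∈ P ∧ y ∈ P
    · refine (hg3 x h.1 y h.2 z).trans ?_
      have h2 : δ x * δ y ≤ B ^ 2 := by
        rw [sq]; exact mul_le_mul (h1 x h.1) (h1 y h.2) (h0 y h.2) ((h0 x h.1).trans (h1 x h.1))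
      rw [div_mul_div_comm, mul_one]
      gcongr
    · rw [hg2 x y z h]; positivity
  · exact fun u => sum_nonneg fun v _ => sum_nonneg fun w _ => hg0 v w u
  · intro u
    refine (sum_le_sum fun v hv => sum_le_sum fun w hw => hg3 v hv w hw u).trans (le_of_eq ?_)
    simp only [← sum_mul]
    rw [hs2]; field_simp
  · rw [← sum_comm3 P P P g, ← hs2]
    exact sum_congr rfl fun x hx => sum_congr rfl fun y hy => hg4 x hx y hy
  · intro u hu
    simp only [load, sum_add_distrib]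
    rw [sum_congr rfl fun v hv => hg4 u hu v hv, sum_congr rfl fun v hv => hg4 v hv u hu, hs1,
      sum_congr rfl fun v _ => show δ v * δ u / (2 * Δ) = δ u * δ v / (2 * Δ) by ring, hs1]
    ring

theorem load_add_sub {V : Type} (P : Finset V) (f g h : V → V → V → ℝ) (u : V) :
    load P (fun x y z => f x y z + g x y z - h x y z) u = load P f u + load P g u - load P h u := by
  simp only [load, sum_add_distrib, sum_sub_distrib]
  ring

theorem load_nonneg {V : Type} (P : Finset V) (f : V → V → V → ℝ) (h0 : ∀ x y z, 0 ≤ f x y z)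
    (u : V) : 0 ≤ load P f u :=
  sum_nonneg fun _ _ => sum_nonneg fun _ _ =>
    add_nonneg (add_nonneg (h0 _ _ _) (h0 _ _ _)) (h0 _ _ _)

theorem frac_iter {V : Type} [DecidableEq V] (P : Finset V) (R : V → V → V → Prop) (κ : ℝ)
    (hκ : 0 < κ) (hR : ∀ x ∈ P, ∀ y ∈ P, κ ≤ ∑ z ∈ P, ind (R x y z)) (θ a Δ0 : ℝ) (hθ : 0 < θ)
    (f0 : V → V → V → ℝ)
    (a1 : ∀ x y z, R x y z → (∑ u ∈ P, (1 - load P f0 u)) / (3 * κ ^ 3) ≤ f0 x y z)
    (a2 : ∀ x y z, ¬R x y z → f0 x y z = 0) (a3 : ∀ x y z, f0 x y z ≤ a)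
    (a4 : ∀ u ∈ P, load P f0 u ≤ 1) (a5 : ∑ u ∈ P, (1 - load P f0 u) ≤ Δ0) (k : ℕ) :
    ∃ f : V → V → V → ℝ,
      (∀ x y z, R x y z → (∑ u ∈ P, (1 - load P f u)) / (3 * κ ^ 3) ≤ f x y z) ∧
      (∀ x y z, ¬R x y z → f x y z = 0) ∧ (∀ x y z, f x y z ≤ a + k / (2 * θ * κ)) ∧
      (∀ u ∈ P, load P f u ≤ 1) ∧
      (∑ u ∈ P, (1 - load P f u) ≤ θ ∨ ∑ u ∈ P, (1 - load P f u) ≤ Δ0 * (1 / 4) ^ k) := by
  induction k with
  | zero => exact ⟨f0, a1, a2, by simpa using a3, a4, Or.inr (by simpa using a5)⟩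
  | succ k ih =>
    obtain ⟨f, b1, b2, b3, b4, b5⟩ := ih
    have e1 : ((k + 1 : ℕ) : ℝ) / (2 * θ * κ) = k / (2 * θ * κ) + 1 / (2 * θ * κ) := by
      push_cast; ring
    have e2 : 0 < 1 / (2 * θ * κ) := by positivity
    by_cases hs : ∑ u ∈ P, (1 - load P f u) ≤ θ
    · exact ⟨f, b1, b2, fun x y z => by linarith [b3 x y z], b4, Or.inl hs⟩
    obtain ⟨Δ, hΔ⟩ : ∃ Δ, ∑ u ∈ P, (1 - load P f u) = Δ := ⟨_, rfl⟩
    rw [hΔ] at b1 b5 hs
    have hθΔ : θ < Δ := not_le.1 hs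
    have hpos : 0 < Δ := hθ.trans hθΔ
    have hf0 : ∀ x y z, 0 ≤ f x y z := by
      intro x y z
      by_cases h : R x y z
      · exact le_trans (by positivity) (b1 x y z h)
      · rw [b2 x y z h]
    obtain ⟨g, p, g0, g1, g2, p0, p1, p2, gp⟩ := pair P R κ hκ hR (fun u => 1 - load P f u) 1
      (fun v hv => by linarith [b4 v hv]) (fun v _ => by linarith [load_nonneg P f hf0 v])
      Δ hΔ hpos
    obtain ⟨h, q, h0, h1, h2, q0, -, q2, hq⟩ := pair P R κ hκ hR p (Δ / (2 * κ))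
      (fun v _ => p0 v) (fun v _ => p1 v) (Δ / 2) p2 (by positivity)
    have hl : ∀ u ∈ P, 1 - load P (fun x y z => f x y z + g x y z - h x y z) u = q u := by
      intro u hu
      rw [load_add_sub, gp u hu, hq u hu]; ring
    have hl2 : ∑ u ∈ P, (1 - load P (fun x y z => f x y z + g x y z - h x y z) u) = Δ / 4 := by
      rw [sum_congr rfl hl, q2]; ring
    refine ⟨fun x y z => f x y z + g x y z - h x y z, ?_, ?_, ?_, ?_, Or.inr ?_⟩
    · intro x y z hr
      rw [hl2]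
      have c1 := b1 x y z hr
      have c2 := h2 x y z
      have c3 := g0 x y z
      have e3 : (Δ / (2 * κ)) ^ 2 / (2 * (Δ / 2) * κ) = Δ / (3 * κ ^ 3) - Δ / 4 / (3 * κ ^ 3) := by
        field_simp; ring
      beta_reduce
      linarith
    · intro x y z hr
      beta_reduce
      rw [b2 x y z hr, g1 x y z hr, h1 x y z hr]; ring
    · intro x y z
      have c1 := b3 x y z
      have c2 := g2 x y z
      have c3 := h0 x y z
      have c4 : 1 ^ 2 / (2 * Δ * κ) ≤ 1 / (2 * θ * κ) := by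
        rw [one_pow]; gcongr
      beta_reduce
      linarith
    · intro u hu
      linarith [hl u hu, q0 u]
    · rw [hl2, pow_succ]
      rcases b5 with b5 | b5
      · exact absurd b5 hs
      · linarith

theorem frac_ar (n c γ D p : ℝ) (hn : 0 < n) (hc : 0 < c) (hγ : γ ≤ c ^ 3 / 32)
    (hn1 : 16 ≤ c ^ 3 * n) (hD : 0 < D) (hp : p ≤ n) (hγ0 : 0 ≤ γ) (S : ℝ)
    (hS : S ≤ p * (1 / (D + 3 * n) * (3 * n + 6 * γ * n ^ 2))) :
    S / (3 * (c * n / 2) ^ 3) ≤ 1 / (D + 3 * n) := by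
  rw [div_le_iff₀ (by positivity)]
  refine hS.trans ?_
  have h1 : n * (3 * n + 6 * γ * n ^ 2) ≤ 3 * (c * n / 2) ^ 3 := by
    have h2 := mul_le_mul_of_nonneg_right hγ (show 0 ≤ n ^ 3 by positivity)
    have h3 := mul_le_mul_of_nonneg_right hn1 (show 0 ≤ n ^ 2 by positivity)
    nlinarith
  calc p * (1 / (D + 3 * n) * (3 * n + 6 * γ * n ^ 2))
      ≤ n * (1 / (D + 3 * n) * (3 * n + 6 * γ * n ^ 2)) := by gcongr
    _ = 1 / (D + 3 * n) * (n * (3 * n + 6 * γ * n ^ 2)) := by ring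
    _ ≤ _ := by gcongr

theorem frac (c η : ℝ) (hc : 0 < c) (hc1 : c ≤ 1) (hη : 0 < η) : ∃ K : ℝ, 1 ≤ K ∧
    ∀ {V : Type} [Fintype V] [DecidableEq V] (E : V → V → V → Prop) (n : ℝ),
      (Fintype.card V : ℝ) = n → 16 ≤ c ^ 3 * n → ∀ D : ℝ, c * n ^ 2 ≤ D →
      (∀ u, load univ (fun x y z => ind (E x y z)) u = D) →
      (∀ x y, x ≠ y → c * n ≤ ∑ z, ind (E x y z)) →
      ∀ W : Finset V, (W.card : ℝ) ≤ c ^ 3 / 32 * n →
      ∃ f : V → V → V → ℝ, (∀ x y z, 0 ≤ f x y z) ∧ (∀ x y z, f x y z ≤ K / n ^ 2) ∧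
        (∀ x y z, f x y z ≠ 0 → E x y z ∨ x = y) ∧ (∀ u ∈ univ \ W, load (univ \ W) f u ≤ 1) ∧
        ∑ u ∈ univ \ W, (1 - load (univ \ W) f u) ≤ η / 2 * n := by
  obtain ⟨k, hk⟩ := exists_pow_lt_of_lt_one (show 0 < η / 2 by positivity)
    (show (1 / 4 : ℝ) < 1 by norm_num)
  refine ⟨1 / c + 2 * k / (η * c), ?_, ?_⟩
  · have : 1 ≤ 1 / c := by rw [le_div_iff₀ hc]; linarith
    have h2 : 0 ≤ 2 * k / (η * c) := by positivity
    linarith
  intro V _ _ E n hn hn1 D hD hreg hco W hW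
  have hc3 : c ^ 3 ≤ c := by nlinarith [mul_pos hc hc, mul_le_mul hc1 hc1 hc.le zero_le_one]
  have hn0 : 0 < n := by
    by_contra h
    have : c ^ 3 * n ≤ 0 := mul_nonpos_of_nonneg_of_nonpos (by positivity) (not_lt.1 h)
    linarith
  have hD0 : 0 < D := lt_of_lt_of_le (by positivity) hD
  set P := univ \ W with hP
  have hPc : (P.card : ℝ) = n - W.card := by
    rw [hP, card_sdiff_of_subset (subset_univ _), Nat.cast_sub (card_le_card (subset_univ _)),
      card_univ, hn]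
  have hW0 : (0 : ℝ) ≤ W.card := by positivity
  have hP0 : (0 : ℝ) ≤ P.card := by positivity
  have hW2 : (W.card : ℝ) ≤ c * n / 2 := by nlinarith
  have hR : ∀ x ∈ P, ∀ y ∈ P, c * n / 2 ≤ ∑ z ∈ P, ind (E x y z ∨ x = y) := by
    intro x _ y _
    by_cases h : x = y
    · rw [sum_congr rfl fun z _ => ind_pos (Or.inr h), sum_const, nsmul_eq_mul, mul_one, hPc]
      nlinarith
    · have h1 := hco x y h
      rw [← sum_sdiff (subset_univ W)] at h1
      have h2 : ∑ z ∈ W, ind (E x y z) ≤ ∑ _z ∈ W, (1 : ℝ) := sum_le_sum fun z _ => ind_le_one _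
      rw [sum_const, nsmul_eq_mul, mul_one] at h2
      have h3 : ∑ z ∈ P, ind (E x y z) ≤ ∑ z ∈ P, ind (E x y z ∨ x = y) :=
        sum_le_sum fun z _ => ind_mono Or.inl
      linarith
  have ha : 0 < 1 / (D + 3 * n) := by positivity
  have hscale : ∀ u, load P (fun x y z => 1 / (D + 3 * n) * ind (E x y z ∨ x = y)) u =
      1 / (D + 3 * n) * load P (fun x y z => ind (E x y z ∨ x = y)) u := by
    intro u; simp only [load, mul_sum, mul_add]
  have hup : ∀ u, load P (fun x y z => ind (E x y z ∨ x = y)) u ≤ D + 3 * n := by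
    intro u
    refine (load_sub (subset_univ P) _ 1 (fun _ _ _ => ind_nonneg _)
      (fun _ _ _ => ind_le_one _) u).1.trans ?_
    have hor : ∀ x y z, ind (E x y z ∨ x = y) ≤ ind (E x y z) + ind (x = y) := by
      intro x y z
      have := ind_nonneg (E x y z)
      have := ind_nonneg (x = y)
      by_cases h : E x y z ∨ x = y
      · rw [ind_pos h]
        rcases h with h | h <;> rw [ind_pos h] <;> linarith
      · rw [ind_neg h]; linarith
    have h1 : load univ (fun x y z => ind (E x y z ∨ x = y)) u ≤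
        ∑ v, ∑ w, ((ind (E u v w) + ind (E v u w) + ind (E v w u)) +
          (ind (u = v) + ind (u = v) + ind (v = w))) := by
      refine sum_le_sum fun v _ => sum_le_sum fun w _ => ?_
      have := hor u v w
      have := hor v u w
      have := hor v w u
      have : ind (v = u) = ind (u = v) := ind_congr eq_comm
      linarith
    have h2 := hreg u
    unfold load at h2
    rw [sum_congr rfl fun v _ => sum_add_distrib, sum_add_distrib, h2] at h1
    simp only [sum_add_distrib, sum_const, card_univ, nsmul_eq_mul, hn, ← mul_sum] at h1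
    have h3 := mul_le_mul_of_nonneg_left (sum_ind_eq_le univ u) hn0.le
    have h4 : ∑ v : V, ∑ w, ind (v = w) ≤ ∑ _v : V, (1 : ℝ) :=
      sum_le_sum fun v _ => sum_ind_eq_le univ v
    rw [sum_const, card_univ, nsmul_eq_mul, hn] at h4
    linarith
  have hlo : ∀ u, D - 6 * (c ^ 3 / 32) * n ^ 2 ≤
      load P (fun x y z => ind (E x y z ∨ x = y)) u := by
    intro u
    have h1 := (load_sub (subset_univ P) (fun x y z => ind (E x y z)) 1 (fun _ _ _ => ind_nonneg _)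
      (fun _ _ _ => ind_le_one _) u).2
    rw [hreg, card_univ, hn, hPc] at h1
    have h2 : load P (fun x y z => ind (E x y z)) u ≤
        load P (fun x y z => ind (E x y z ∨ x = y)) u :=
      sum_le_sum fun v _ => sum_le_sum fun w _ =>
        add_le_add (add_le_add (ind_mono Or.inl) (ind_mono Or.inl)) (ind_mono Or.inl)
    nlinarith [mul_le_mul_of_nonneg_left hW hn0.le]
  have hl1 : ∀ u, load P (fun x y z => 1 / (D + 3 * n) * ind (E x y z ∨ x = y)) u ≤ 1 := by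
    intro u
    rw [hscale, one_div, inv_mul_le_iff₀ (by positivity), mul_one]
    exact hup u
  obtain ⟨f, b1, b2, b3, b4, b5⟩ := frac_iter P (fun x y z => E x y z ∨ x = y) (c * n / 2)
    (by positivity) hR (η / 2 * n) (1 / (D + 3 * n)) n (by positivity)
    (fun x y z => 1 / (D + 3 * n) * ind (E x y z ∨ x = y))
    (by
      intro x y z h
      rw [ind_pos h, mul_one]
      refine frac_ar n c (c ^ 3 / 32) D P.card hn0 hc le_rfl hn1 hD0 (by linarith)
        (by positivity) _ ?_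
      rw [← nsmul_eq_mul, ← sum_const]
      refine sum_le_sum fun u _ => ?_
      rw [hscale]
      have h1 := mul_le_mul_of_nonneg_left (hlo u) ha.le
      have h2 : 1 / (D + 3 * n) * (D + 3 * n) = 1 := by field_simp
      linarith)
    (fun x y z h => by rw [ind_neg h, mul_zero])
    (fun x y z => by nlinarith [ind_le_one (E x y z ∨ x = y)])
    (fun u _ => hl1 u)
    (by
      have h1 : ∑ u ∈ P, (1 - load P
          (fun x y z => 1 / (D + 3 * n) * ind (E x y z ∨ x = y)) u) ≤ ∑ _u ∈ P, (1 : ℝ) :=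
        sum_le_sum fun u _ => by
          linarith [load_nonneg P (fun x y z => 1 / (D + 3 * n) * ind (E x y z ∨ x = y))
            (fun x y z => mul_nonneg ha.le (ind_nonneg _)) u]
      rw [sum_const, nsmul_eq_mul, mul_one] at h1
      linarith) k
  refine ⟨f, ?_, ?_, ?_, b4, ?_⟩
  · intro x y z
    by_cases h : E x y z ∨ x = y
    · refine le_trans (div_nonneg (sum_nonneg fun u hu => ?_) (by positivity)) (b1 x y z h)
      linarith [b4 u hu]
    · rw [b2 x y z h]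
  · intro x y z
    refine (b3 x y z).trans ?_
    have h1 : 1 / (D + 3 * n) ≤ 1 / (c * n ^ 2) :=
      one_div_le_one_div_of_le (by positivity) (by linarith)
    have e : (1 / c + 2 * k / (η * c)) / n ^ 2 =
        1 / (c * n ^ 2) + k / (2 * (η / 2 * n) * (c * n / 2)) := by field_simp
    linarith
  · intro x y z h
    by_contra h'
    exact h (b2 x y z h')
  · rcases b5 with b5 | b5
    · exact b5
    · nlinarith

end Pool.Agent.H.MP_b50c09_co
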