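import Pool.Agent.H.MP_b50c09_co.Count

namespace Pool.Agent.H.MP_b50c09_co

open Finset

variable {V : Type} [DecidableEq V]

/-- The three entries of a related triple are distinct. -/
def Irr (E : V → V → V → Prop) : Prop := ∀ x y z, E x y z → x ≠ y ∧ x ≠ z ∧ y ≠ z

abbrev B3 (V : Type) := Finset V × Finset V × Finset V

def supp (b : B3 V) : Finset V := b.1 ∪ b.2.1 ∪ b.2.2

def Blk (E : V → V → V → Prop) (s : ℕ) (b : B3 V) : Prop :=
  b.1.card = s ∧ b.2.1.card = s ∧ b.2.2.card = s ∧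
    ∀ x ∈ b.1, ∀ y ∈ b.2.1, ∀ z ∈ b.2.2, E x y z

def Pack (E : V → V → V → Prop) (s : ℕ) (F : Finset (B3 V)) : Prop :=
  (∀ b ∈ F, Blk E s b) ∧ ∀ b ∈ F, ∀ b' ∈ F, b ≠ b' → Disjoint (supp b) (supp b')

def cov (F : Finset (B3 V)) : Finset V := F.biUnion supp

def Tiled (E : V → V → V → Prop) (s : ℕ) (X : Finset V) : Prop := ∃ F, Pack E s F ∧ cov F = X

variable {E : V → V → V → Prop} {s : ℕ}

omit [DecidableEq V] in
theorem Blk.disj (hE : Irr E) {b : B3 V} (hb : Blk E s b) :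
    Disjoint b.1 b.2.1 ∧ Disjoint b.1 b.2.2 ∧ Disjoint b.2.1 b.2.2 := by
  obtain ⟨h1, h2, h3, h4⟩ := hb
  rcases Nat.eq_zero_or_pos s with rfl | hs
  · rw [card_eq_zero] at h1 h2 h3
    simp [h1, h2, h3]
  obtain ⟨x, hx⟩ := card_pos.1 (h1 ▸ hs)
  obtain ⟨y, hy⟩ := card_pos.1 (h2 ▸ hs)
  obtain ⟨z, hz⟩ := card_pos.1 (h3 ▸ hs)
  refine ⟨disjoint_left.2 fun a ha ha' => (hE _ _ _ (h4 a ha a ha' z hz)).1 rfl,
    disjoint_left.2 fun a ha ha' => (hE _ _ _ (h4 a ha y hy a ha')).2.1 rfl,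
    disjoint_left.2 fun a ha ha' => (hE _ _ _ (h4 x hx a ha a ha')).2.2 rfl⟩

theorem Blk.card_supp (hE : Irr E) {b : B3 V} (hb : Blk E s b) : (supp b).card = 3 * s := by
  obtain ⟨d1, d2, d3⟩ := hb.disj hE
  rw [supp, card_union_of_disjoint (disjoint_union_left.2 ⟨d2, d3⟩), card_union_of_disjoint d1,
    hb.1, hb.2.1, hb.2.2.1]
  ring

theorem Pack.card_cov (hE : Irr E) {F : Finset (B3 V)} (hF : Pack E s F) :
    (cov F).card = 3 * s * F.card := by
  rw [cov, card_biUnion (fun b hb b' hb' h => hF.2 b hb b' hb' h),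
    sum_congr rfl fun b hb => (hF.1 b hb).card_supp hE, sum_const, smul_eq_mul, mul_comm]

theorem supp_subset_cov {F : Finset (B3 V)} {b : B3 V} (hb : b ∈ F) : supp b ⊆ cov F :=
  subset_biUnion_of_mem supp hb

theorem cov_union (F G : Finset (B3 V)) : cov (F ∪ G) = cov F ∪ cov G := by
  simp [cov, union_biUnion]

theorem Pack.union {F G : Finset (B3 V)} (hF : Pack E s F) (hG : Pack E s G)
    (h : Disjoint (cov F) (cov G)) : Pack E s (F ∪ G) := by
  refine ⟨fun b hb => (mem_union.1 hb).elim (hF.1 b) (hG.1 b), fun b hb b' hb' hne => ?_⟩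
  rcases mem_union.1 hb with hb | hb <;> rcases mem_union.1 hb' with hb' | hb'
  · exact hF.2 b hb b' hb' hne
  · exact h.mono (supp_subset_cov hb) (supp_subset_cov hb')
  · exact h.symm.mono (supp_subset_cov hb) (supp_subset_cov hb')
  · exact hG.2 b hb b' hb' hne

theorem Pack.mono {F G : Finset (B3 V)} (hF : Pack E s F) (h : G ⊆ F) : Pack E s G :=
  ⟨fun b hb => hF.1 b (h hb), fun b hb b' hb' => hF.2 b (h hb) b' (h hb')⟩

theorem Pack.single {b : B3 V} (hb : Blk E s b) : Pack E s {b} := by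
  refine ⟨by simpa using hb, ?_⟩
  intro x hx y hy hne
  rw [mem_singleton] at hx hy
  exact absurd (hx.trans hy.symm) hne

theorem cov_single (b : B3 V) : cov {b} = supp b := by simp [cov]

theorem Tiled.empty : Tiled E s ∅ := ⟨∅, ⟨by simp, by simp⟩, by simp [cov]⟩

theorem Tiled.single {b : B3 V} (hb : Blk E s b) : Tiled E s (supp b) :=
  ⟨{b}, Pack.single hb, cov_single b⟩

theorem Tiled.union {X Y : Finset V} (hX : Tiled E s X) (hY : Tiled E s Y) (h : Disjoint X Y) :
    Tiled E s (X ∪ Y) := by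
  obtain ⟨F, hF, rfl⟩ := hX
  obtain ⟨G, hG, rfl⟩ := hY
  exact ⟨F ∪ G, hF.union hG h, cov_union F G⟩

theorem Tiled.biUnion {ι : Type} [DecidableEq ι] (I : Finset ι) (X : ι → Finset V)
    (hX : ∀ i ∈ I, Tiled E s (X i))
    (h : ∀ i ∈ I, ∀ j ∈ I, i ≠ j → Disjoint (X i) (X j)) : Tiled E s (I.biUnion X) := by
  induction I using Finset.induction_on with
  | empty => simpa using Tiled.empty
  | insert i I hi ih =>
    rw [biUnion_insert]
    refine (hX i (mem_insert_self _ _)).union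
      (ih (fun j hj => hX j (mem_insert_of_mem hj))
        fun a ha b hb => h a (mem_insert_of_mem ha) b (mem_insert_of_mem hb)) ?_
    rw [disjoint_biUnion_right]
    intro j hj
    exact h i (mem_insert_self _ _) j (mem_insert_of_mem hj) (fun e => hi (e ▸ hj))

theorem tileK (hE : Irr E) (q : ℕ) : ∀ (A B C : Finset V),
    (∀ x ∈ A, ∀ y ∈ B, ∀ z ∈ C, E x y z) → q * s ≤ A.card → q * s ≤ B.card → q * s ≤ C.card →
    ∃ X ⊆ A ∪ B ∪ C, Tiled E s X ∧ X.card = 3 * s * q := by
  induction q with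
  | zero => intro A B C _ _ _ _; exact ⟨∅, empty_subset _, Tiled.empty, by simp⟩
  | succ q ih =>
    intro A B C h hA hB hC
    have e : (q + 1) * s = q * s + s := by ring
    rcases Nat.eq_zero_or_pos s with rfl | hs
    · exact ⟨∅, empty_subset _, Tiled.empty, by simp⟩
    obtain ⟨A', hA1, hA2⟩ := exists_subset_card_eq (s := A) (n := s) (by omega)
    obtain ⟨B', hB1, hB2⟩ := exists_subset_card_eq (s := B) (n := s) (by omega)
    obtain ⟨C', hC1, hC2⟩ := exists_subset_card_eq (s := C) (n := s) (by omega)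
    have hb : Blk E s (A', B', C') :=
      ⟨hA2, hB2, hC2, fun x hx y hy z hz => h x (hA1 hx) y (hB1 hy) z (hC1 hz)⟩
    obtain ⟨X, hX1, hX2, hX3⟩ := ih (A \ A') (B \ B') (C \ C')
      (fun x hx y hy z hz => h x (mem_sdiff.1 hx).1 y (mem_sdiff.1 hy).1 z (mem_sdiff.1 hz).1)
      (by rw [card_sdiff_of_subset hA1]; omega) (by rw [card_sdiff_of_subset hB1]; omega)
      (by rw [card_sdiff_of_subset hC1]; omega)
    obtain ⟨x, hx⟩ := card_pos.1 (hA2 ▸ hs)
    obtain ⟨y, hy⟩ := card_pos.1 (hB2 ▸ hs)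
    obtain ⟨z, hz⟩ := card_pos.1 (hC2 ▸ hs)
    have dAB : ∀ a ∈ A, a ∉ B := fun a ha ha' => (hE _ _ _ (h a ha a ha' z (hC1 hz))).1 rfl
    have dAC : ∀ a ∈ A, a ∉ C := fun a ha ha' => (hE _ _ _ (h a ha y (hB1 hy) a ha')).2.1 rfl
    have dBC : ∀ a ∈ B, a ∉ C := fun a ha ha' => (hE _ _ _ (h x (hA1 hx) a ha a ha')).2.2 rfl
    have hd : Disjoint X (supp (A', B', C')) := by
      rw [disjoint_left]
      intro a ha ha'
      have h1 := hX1 ha
      simp only [supp, mem_union, mem_sdiff] at h1 ha'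
      have := dAB a
      have := dAC a
      have := dBC a
      have := @hA1 a
      have := @hB1 a
      have := @hC1 a
      tauto
    refine ⟨X ∪ supp (A', B', C'), ?_, hX2.union (Tiled.single hb) hd, ?_⟩
    · intro a ha
      rcases mem_union.1 ha with ha | ha
      · have h1 := hX1 ha
        simp only [mem_union, mem_sdiff] at h1 ⊢
        tauto
      · simp only [supp, mem_union] at ha ⊢
        have := @hA1 a
        have := @hB1 a
        have := @hC1 a
        tauto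
    · rw [card_union_of_disjoint hd, hX3, hb.card_supp hE]; ring

theorem pieces (T : ℕ) (r : ℕ) : ∀ U : Finset V, r * T ≤ U.card →
    ∃ cl : Fin r → Finset V, (∀ i, cl i ⊆ U ∧ (cl i).card = T) ∧
      ∀ i j, i ≠ j → Disjoint (cl i) (cl j) := by
  induction r with
  | zero => intro U _; exact ⟨fun i => i.elim0, fun i => i.elim0, fun i => i.elim0⟩
  | succ r ih =>
    intro U hU
    have e : (r + 1) * T = r * T + T := by ring
    obtain ⟨A, hA1, hA2⟩ := exists_subset_card_eq (s := U) (n := T) (by omega)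
    obtain ⟨cl, h1, h2⟩ := ih (U \ A) (by rw [card_sdiff_of_subset hA1]; omega)
    have hd : ∀ i, Disjoint A (cl i) := fun i => disjoint_sdiff.mono_right (h1 i).1
    refine ⟨Fin.cons A cl, ?_, ?_⟩
    · intro i
      refine Fin.cases ?_ (fun i => ?_) i
      · exact ⟨hA1, hA2⟩
      · exact ⟨(h1 i).1.trans sdiff_subset, (h1 i).2⟩
    · intro i j
      refine Fin.cases ?_ (fun i => ?_) i <;> refine Fin.cases ?_ (fun j => ?_) j
      · intro h; exact absurd rfl h
      · intro _; exact hd j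
      · intro _; exact (hd i).symm
      · intro h; exact h2 i j (fun e => h (by rw [e]))

end Pool.Agent.H.MP_b50c09_co
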