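import Pool.Agent.H.MP_b50c09_co.Pack

namespace Pool.Agent.H.MP_b50c09_co

open Finset

theorem avoid {V : Type} [DecidableEq V] (r : V → V → V → Prop) (A B C X : Finset V) :
    ∑ a ∈ A, ∑ b ∈ B, ∑ c ∈ C, ind (r a b c) -
      (((A ∩ X).card : ℝ) * B.card * C.card + A.card * (B ∩ X).card * C.card +
        A.card * B.card * (C ∩ X).card) ≤
      ∑ a ∈ A, ∑ b ∈ B, ∑ c ∈ C, ind (a ∉ X ∧ b ∉ X ∧ c ∉ X ∧ r a b c) := by
  have h1 : ∑ a ∈ A, ∑ b ∈ B, ∑ c ∈ C, ind (r a b c) ≤ ∑ a ∈ A, ∑ b ∈ B, ∑ c ∈ C,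
      (ind (a ∉ X ∧ b ∉ X ∧ c ∉ X ∧ r a b c) + (ind (a ∈ X) + ind (b ∈ X) + ind (c ∈ X))) := by
    refine sum_le_sum fun a _ => sum_le_sum fun b _ => sum_le_sum fun c _ => ?_
    have ha := ind_nonneg (a ∈ X)
    have hb := ind_nonneg (b ∈ X)
    have hc := ind_nonneg (c ∈ X)
    have h0 := ind_nonneg (a ∉ X ∧ b ∉ X ∧ c ∉ X ∧ r a b c)
    have h1 := ind_le_one (r a b c)
    by_cases ha' : a ∈ X
    · rw [ind_pos ha']; linarith
    by_cases hb' : b ∈ X
    · rw [ind_pos hb']; linarith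
    by_cases hc' : c ∈ X
    · rw [ind_pos hc']; linarith
    have : ind (r a b c) ≤ ind (a ∉ X ∧ b ∉ X ∧ c ∉ X ∧ r a b c) :=
      ind_mono fun h => ⟨ha', hb', hc', h⟩
    linarith
  simp only [sum_add_distrib, sum_const, nsmul_eq_mul, ← mul_sum, sum_ind_mem] at h1
  linarith

noncomputable def dens {V ι : Type} (E : V → V → V → Prop) (cl : ι → Finset V)
    (τ : ι × ι × ι) : ℝ :=
  ∑ a ∈ cl τ.1, ∑ b ∈ cl τ.2.1, ∑ c ∈ cl τ.2.2, ind (E a b c)

def role {ι : Type} [DecidableEq ι] (y : ι) (τ : ι × ι × ι) : ℕ :=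
  (if τ.1 = y then 1 else 0) + (if τ.2.1 = y then 1 else 0) + (if τ.2.2 = y then 1 else 0)

theorem card_inter_cl {V ι : Type} [DecidableEq V] [DecidableEq ι] (cl : ι → Finset V)
    (hd : ∀ i j, i ≠ j → Disjoint (cl i) (cl j)) (A : Finset V) (x y : ι) (hA : A ⊆ cl x) :
    (A ∩ cl y).card = A.card * (if x = y then 1 else 0) := by
  split_ifs with h
  · subst h; rw [inter_eq_left.2 hA, mul_one]
  · rw [mul_zero, card_eq_zero, ← disjoint_iff_inter_eq_empty]
    exact (hd x y h).mono_left hA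

theorem seqExtract (s : ℕ) (δ : ℝ) (hδ : 0 < δ) : ∃ T0 : ℕ, ∀ T : ℕ, T0 ≤ T →
    ∀ {V ι : Type} [DecidableEq V] [DecidableEq ι] (E : V → V → V → Prop), Irr E →
    ∀ (cl : ι → Finset V), (∀ i, (cl i).card = T) → (∀ i j, i ≠ j → Disjoint (cl i) (cl j)) →
    ∀ m : Multiset (ι × ι × ι), (∀ τ ∈ m, δ * (T : ℝ) ^ 3 ≤ dens E cl τ) →
      (∀ y, ((s * (m.map (role y)).sum : ℕ) : ℝ) ≤ δ * T / 8) →
      ∃ X, Tiled E s X ∧ (∀ v ∈ X, ∃ i, v ∈ cl i) ∧
        ∀ y, (X ∩ cl y).card = s * (m.map (role y)).sum := by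
  obtain ⟨T0, hT0⟩ := exists_box s (δ / 2) (by positivity)
  refine ⟨T0, ?_⟩
  intro T hT V ι _ _ E hE cl hc hd m
  induction m using Multiset.induction_on with
  | empty => intro _ _; exact ⟨∅, Tiled.empty, by simp, by simp⟩
  | cons τ m ih =>
    intro h1 h2
    have h2' : ∀ y, ((s * (m.map (role y)).sum : ℕ) : ℝ) ≤ δ * T / 8 := by
      intro y
      refine le_trans ?_ (h2 y)
      rw [Multiset.map_cons, Multiset.sum_cons]
      exact_mod_cast Nat.mul_le_mul_left s (Nat.le_add_left _ _)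
    obtain ⟨X, hX1, hX2, hX3⟩ := ih (fun σ hσ => h1 σ (Multiset.mem_cons_of_mem hσ)) h2'
    have hX4 : ∀ y, ((cl y ∩ X).card : ℝ) ≤ δ * T / 8 := by
      intro y; rw [inter_comm, hX3]; exact h2' y
    have h3 := avoid E (cl τ.1) (cl τ.2.1) (cl τ.2.2) X
    have h4 := h1 τ (Multiset.mem_cons_self _ _)
    unfold dens at h4
    obtain ⟨A, hA, B, hB, C, hC, cA, cB, cC, hr⟩ := hT0 (cl τ.1) (cl τ.2.1) (cl τ.2.2)
      (fun a b c => a ∉ X ∧ b ∉ X ∧ c ∉ X ∧ E a b c) (by rw [hc]; exact hT) (by rw [hc]; exact hT)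
      (by rw [hc]; exact hT) (by
        simp only [hc] at h3 ⊢
        have hT2 : (0 : ℝ) ≤ (T : ℝ) ^ 2 := by positivity
        have e1 := mul_le_mul_of_nonneg_right (hX4 τ.1) hT2
        have e2 := mul_le_mul_of_nonneg_right (hX4 τ.2.1) hT2
        have e3 := mul_le_mul_of_nonneg_right (hX4 τ.2.2) hT2
        have e4 : 0 ≤ δ * (T : ℝ) ^ 3 := by positivity
        nlinarith)
    have hb : Blk E s (A, B, C) := ⟨cA, cB, cC, fun x hx y hy z hz => (hr x hx y hy z hz).2.2.2⟩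
    rcases Nat.eq_zero_or_pos s with rfl | hs
    · exact ⟨∅, Tiled.empty, by simp, by simp⟩
    obtain ⟨x, hx⟩ := card_pos.1 (cA ▸ hs)
    obtain ⟨y, hy⟩ := card_pos.1 (cB ▸ hs)
    obtain ⟨z, hz⟩ := card_pos.1 (cC ▸ hs)
    have hdX : Disjoint X (supp (A, B, C)) := by
      rw [disjoint_right]
      intro a ha
      simp only [supp, mem_union] at ha
      rcases ha with (ha | ha) | ha
      · exact (hr a ha y hy z hz).1
      · exact (hr x hx a ha z hz).2.1
      · exact (hr x hx y hy a ha).2.2.1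
    obtain ⟨d1, d2, d3⟩ := hb.disj hE
    refine ⟨X ∪ supp (A, B, C), hX1.union (Tiled.single hb) hdX, ?_, ?_⟩
    · intro v hv
      simp only [supp, mem_union] at hv
      rcases hv with hv | (hv | hv) | hv
      · exact hX2 v hv
      · exact ⟨_, hA hv⟩
      · exact ⟨_, hB hv⟩
      · exact ⟨_, hC hv⟩
    · intro u
      rw [union_inter_distrib_right, card_union_of_disjoint
        (hdX.mono inter_subset_left inter_subset_left), hX3, supp, union_inter_distrib_right,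
        union_inter_distrib_right, card_union_of_disjoint, card_union_of_disjoint,
        card_inter_cl cl hd A _ u hA, card_inter_cl cl hd B _ u hB, card_inter_cl cl hd C _ u hC,
        cA, cB, cC, Multiset.map_cons, Multiset.sum_cons, role]
      · ring
      · exact d1.mono inter_subset_left inter_subset_left
      · rw [disjoint_union_left]
        exact ⟨d2.mono inter_subset_left inter_subset_left,
          d3.mono inter_subset_left inter_subset_left⟩

/-- Maurey's empirical method. -/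
theorem maurey {ι Ω : Type} [Fintype ι] [Fintype Ω] [Nonempty Ω] (h : Ω → ι → ℝ) (M : ℝ)
    (hM : ∀ ω x, (h ω x) ^ 2 ≤ M) (l : ι → ℝ)
    (hl : ∀ x, ∑ ω, h ω x = Fintype.card Ω * l x) (D : ℕ) :
    ∃ w : Fin D → Ω, ∑ x, (∑ j, h (w j) x - D * l x) ^ 2 ≤ D * M * Fintype.card ι := by
  induction D with
  | zero => exact ⟨fun i => i.elim0, by simp⟩
  | succ D ih =>
    obtain ⟨w, hw⟩ := ih
    set S : ι → ℝ := fun x => ∑ j, h (w j) x - D * l x with hS
    have key : ∑ ω : Ω, ∑ x, (S x + (h ω x - l x)) ^ 2 ≤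
        ∑ _ω : Ω, ((D + 1 : ℕ) : ℝ) * M * Fintype.card ι := by
      rw [sum_comm]
      have h1 : ∀ x, ∑ ω : Ω, (S x + (h ω x - l x)) ^ 2 ≤ Fintype.card Ω * (S x ^ 2 + M) := by
        intro x
        have e : ∀ ω, (S x + (h ω x - l x)) ^ 2 =
            (S x - l x) ^ 2 + 2 * (S x - l x) * h ω x + h ω x ^ 2 := fun ω => by ring
        simp only [e, sum_add_distrib, sum_const, card_univ, nsmul_eq_mul, ← mul_sum, hl]
        have h2 : ∑ ω : Ω, h ω x ^ 2 ≤ ∑ _ω : Ω, M := sum_le_sum fun ω _ => hM ω x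
        rw [sum_const, card_univ, nsmul_eq_mul] at h2
        have h3 : (0 : ℝ) ≤ Fintype.card Ω * l x ^ 2 := by positivity
        nlinarith
      refine (sum_le_sum fun x _ => h1 x).trans ?_
      rw [← mul_sum, sum_add_distrib, sum_const, sum_const, card_univ, card_univ, nsmul_eq_mul,
        nsmul_eq_mul]
      refine mul_le_mul_of_nonneg_left ?_ (by positivity)
      push_cast
      linarith
    obtain ⟨ω, -, hω⟩ := exists_le_of_sum_le univ_nonempty key
    refine ⟨Fin.cons ω w, le_trans (le_of_eq (sum_congr rfl fun x _ => ?_)) hω⟩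
    rw [Fin.sum_univ_succ]
    simp only [Fin.cons_zero, Fin.cons_succ, hS]
    push_cast
    ring

end Pool.Agent.H.MP_b50c09_co
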